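import Mathlib

/-!
# Embeddings which extend a given one, and the trace
-/

set_option autoImplicit false
set_option linter.unusedSectionVars false
set_option linter.style.haveILetI false

open Finset

namespace Pool.Agent.Q262.AB

section fib

variable {F L : Type} [Field F] [Field L] [Algebra ℚ F] [Algebra ℚ L] [Algebra F L]
  [IsScalarTower ℚ F L] [FiniteDimensional ℚ L]

open Classical in
/-- the embeddings of `L` which extend `v` -/
noncomputable def fib (v : F →ₐ[ℚ] ℂ) : Finset (L →ₐ[ℚ] ℂ) :=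
  univ.filter fun φ => ∀ a : F, φ (algebraMap F L a) = v a

open Classical in
lemma mem_fib {v : F →ₐ[ℚ] ℂ} {φ : L →ₐ[ℚ] ℂ} :
    φ ∈ fib (L := L) v ↔ ∀ a : F, φ (algebraMap F L a) = v a := by
  unfold fib
  rw [mem_filter]
  exact ⟨fun h => h.2, fun h => ⟨mem_univ _, h⟩⟩

theorem trace_fib (v : F →ₐ[ℚ] ℂ) (x : L) :
    v (Algebra.trace F L x) = ∑ φ ∈ fib (L := L) v, φ x := by
  classical
  letI : Algebra F ℂ := v.toRingHom.toAlgebra
  haveI : IsScalarTower ℚ F ℂ := IsScalarTower.of_algebraMap_eq fun q => (v.commutes q).symm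
  haveI : FiniteDimensional F L := FiniteDimensional.right ℚ F L
  haveI : CharZero F := charZero_of_injective_algebraMap (algebraMap ℚ F).injective
  have h : algebraMap F ℂ (Algebra.trace F L x) = ∑ σ : L →ₐ[F] ℂ, σ x :=
    trace_eq_sum_embeddings (K := F) (L := L) ℂ
  have h0 : v (Algebra.trace F L x) = algebraMap F ℂ (Algebra.trace F L x) := rfl
  rw [h0, h]
  refine sum_bij' (fun (σ : L →ₐ[F] ℂ) _ => σ.restrictScalars ℚ)
    (fun (φ : L →ₐ[ℚ] ℂ) hφ => ({ φ.toRingHom with commutes' := mem_fib.1 hφ } : L →ₐ[F] ℂ))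
    ?_ ?_ ?_ ?_ ?_
  · intro σ _
    rw [mem_fib]
    intro a
    exact σ.commutes a
  · intro φ _
    exact mem_univ _
  · intro σ _
    rfl
  · intro φ _
    rfl
  · intro σ _
    rfl

theorem card_fib (v : F →ₐ[ℚ] ℂ) : (fib (L := L) v).card = Module.finrank F L := by
  have h := trace_fib (L := L) v 1
  have h1 : Algebra.trace F L 1 = (Module.finrank F L : F) := by
    rw [← map_one (algebraMap F L), Algebra.trace_algebraMap, nsmul_eq_mul, mul_one]
  rw [h1, map_natCast] at h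
  have h2 : ∑ φ ∈ fib (L := L) v, φ (1 : L) = ((fib (L := L) v).card : ℂ) := by
    rw [sum_congr rfl fun φ _ => map_one φ, sum_const, nsmul_eq_mul, mul_one]
  rw [h2] at h
  exact_mod_cast h.symm

end fib

/-- the embeddings `φ` with `φ ∘ a = v`, for an embedding `a` -/
theorem card_comp {F L : Type} [Field F] [Field L] [Algebra ℚ F] [Algebra ℚ L]
    [FiniteDimensional ℚ L] (a : F →ₐ[ℚ] L) (v : F →ₐ[ℚ] ℂ) [DecidablePred fun φ : L →ₐ[ℚ] ℂ =>
      φ.comp a = v] :
    (univ.filter fun φ : L →ₐ[ℚ] ℂ => φ.comp a = v).card * Module.finrank ℚ F =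
      Module.finrank ℚ L := by
  letI : Algebra F L := a.toRingHom.toAlgebra
  haveI : IsScalarTower ℚ F L := IsScalarTower.of_algebraMap_eq fun q => (a.commutes q).symm
  haveI : FiniteDimensional ℚ F := FiniteDimensional.left ℚ F L
  have h1 : (univ.filter fun φ : L →ₐ[ℚ] ℂ => φ.comp a = v) = fib (L := L) v := by
    ext φ
    rw [mem_fib, mem_filter]
    constructor
    · rintro ⟨-, h⟩ x
      rw [← h]
      rfl
    · intro h
      exact ⟨mem_univ _, AlgHom.ext h⟩
  rw [h1, card_fib, mul_comm]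
  exact Module.finrank_mul_finrank ℚ F L

/-- the power of a sum -/
theorem sum_pow {R : Type*} [CommRing R] {p : ℕ} (hp : p.Prime) {ι : Type*} (s : Finset ι)
    (x : ι → R) : ∃ r : R, (∑ i ∈ s, x i) ^ p = ∑ i ∈ s, x i ^ p + p * r := by
  classical
  induction s using Finset.induction_on with
  | empty => exact ⟨0, by rw [sum_empty, sum_empty, zero_pow hp.ne_zero]; ring⟩
  | insert i s hi ih =>
    obtain ⟨r, hr⟩ := ih
    obtain ⟨r', hr'⟩ := exists_add_pow_prime_eq hp (x i) (∑ i ∈ s, x i)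
    refine ⟨r + x i * (∑ i ∈ s, x i) * r', ?_⟩
    rw [sum_insert hi, sum_insert hi, hr', hr]
    ring

/-- the trace of a power -/
theorem trace_pow {F L : Type} [Field F] [Field L] [Algebra ℚ F] [Algebra ℚ L] [Algebra F L]
    [IsScalarTower ℚ F L] [FiniteDimensional ℚ L] (v : F →ₐ[ℚ] ℂ) {p : ℕ} (hp : p.Prime) {x : L}
    (hx : IsIntegral ℤ x) :
    ∃ y : F, IsIntegral ℤ y ∧ Algebra.trace F L (x ^ p) = (Algebra.trace F L x) ^ p + p * y := by
  have hφ : ∀ φ : L →ₐ[ℚ] ℂ, IsIntegral ℤ (φ x) := fun φ => hx.map (φ.restrictScalars ℤ)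
  obtain ⟨r, hr⟩ := sum_pow (R := integralClosure ℤ ℂ) hp (fib (L := L) v) fun φ => ⟨φ x, hφ φ⟩
  have hp0 : (p : F) ≠ 0 := by
    haveI : CharZero F := charZero_of_injective_algebraMap (algebraMap ℚ F).injective
    exact_mod_cast hp.ne_zero
  refine ⟨(Algebra.trace F L (x ^ p) - (Algebra.trace F L x) ^ p) / p, ?_, by field_simp; ring⟩
  have hr' := congrArg (fun z : integralClosure ℤ ℂ => (z : ℂ)) hr
  simp only [SubmonoidClass.coe_pow, AddSubmonoidClass.coe_finset_sum, Subalgebra.coe_add,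
    Subalgebra.coe_mul] at hr'
  have h1 : v ((Algebra.trace F L (x ^ p) - (Algebra.trace F L x) ^ p) / p) = -(r : ℂ) := by
    have hp0' : (p : ℂ) ≠ 0 := by exact_mod_cast hp.ne_zero
    have h2 : ∑ φ ∈ fib (L := L) v, φ (x ^ p) = ∑ φ ∈ fib (L := L) v, φ x ^ p :=
      sum_congr rfl fun φ _ => map_pow φ x p
    have h4 : v (Algebra.trace F L (x ^ p)) = ∑ φ ∈ fib (L := L) v, φ x ^ p := by
      rw [trace_fib, h2]
    have h5 : v ((Algebra.trace F L x) ^ p) = (∑ φ ∈ fib (L := L) v, φ x) ^ p := by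
      rw [map_pow v, trace_fib]
    have h6 : (((p : integralClosure ℤ ℂ)) : ℂ) = (p : ℂ) := rfl
    rw [h6] at hr'
    rw [map_div₀, map_sub v, map_natCast, h4, h5, hr', div_eq_iff hp0']
    ring
  have h3 : IsIntegral ℤ (v ((Algebra.trace F L (x ^ p) - (Algebra.trace F L x) ^ p) / p)) := by
    rw [h1]
    exact (r.2 : IsIntegral ℤ (r : ℂ)).neg
  exact (isIntegral_algHom_iff (v.restrictScalars ℤ) v.injective).1 h3

end Pool.Agent.Q262.AB
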