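import Mathlib
import Pool.Agent.Q262.AB.Fib
import Pool.Agent.W738.SAL.E

/-!
# The relative power sums of `β` and their conjugates
-/

set_option autoImplicit false
set_option linter.unusedSectionVars false
set_option linter.style.haveILetI false

open Finset Polynomial Pool.Agent.W738.SAL

namespace Pool.Agent.Q262.AB

section

variable {β : ℝ} {F : Type} [Field F] [Algebra ℚ F] [Algebra F (TF β)] [IsScalarTower ℚ F (TF β)]
  [FiniteDimensional ℚ (TF β)]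

/-- the relative trace of `β ^ n + β ^ (-n)` -/
noncomputable def S (β : ℝ) (F : Type) [Field F] [Algebra F (TF β)] (n : ℕ) : F :=
  Algebra.trace F (TF β) (aeval (tt β) (dickson 1 (1 : ℤ) n))

/-- the given embedding of `F` -/
noncomputable def v0 (β : ℝ) (F : Type) [Field F] [Algebra ℚ F] [Algebra F (TF β)]
    [IsScalarTower ℚ F (TF β)] : F →ₐ[ℚ] ℂ :=
  (φ₀ β).comp (IsScalarTower.toAlgHom ℚ F (TF β))

lemma norm_S_other (hβ : 1 < β) (hint : IsIntegral ℤ β)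
    (hrec : aeval β⁻¹ (minpoly ℤ β) = 0)
    (hone : ∀ z : ℂ, aeval z (minpoly ℤ β) = 0 → z ≠ (β : ℂ) → ‖z‖ ≤ 1)
    {v : F →ₐ[ℚ] ℂ} (hv : v ≠ v0 β F) (n : ℕ) :
    ‖v (S β F n)‖ ≤ 2 * Module.finrank F (TF β) := by
  unfold S
  rw [trace_fib, ← card_fib (L := TF β) v]
  refine (norm_sum_le _ _).trans ?_
  have h1 : ∀ φ ∈ fib (L := TF β) v, ‖φ (aeval (tt β) (dickson 1 (1 : ℤ) n))‖ ≤ 2 := by
    intro φ hφ
    refine norm_φ_other hβ hint hrec hone ?_ n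
    intro h
    apply hv
    ext a
    rw [← mem_fib.1 hφ a, h]
    rfl
  refine (sum_le_sum h1).trans ?_
  rw [sum_const, nsmul_eq_mul, mul_comm]

lemma norm_S_self (hβ : 1 < β) (hint : IsIntegral ℤ β)
    (hrec : aeval β⁻¹ (minpoly ℤ β) = 0)
    (hone : ∀ z : ℂ, aeval z (minpoly ℤ β) = 0 → z ≠ (β : ℂ) → ‖z‖ ≤ 1) (n : ℕ) :
    ‖v0 β F (S β F n) - (U β n : ℂ)‖ ≤ 2 * (Module.finrank F (TF β) - 1) := by
  classical
  unfold S
  rw [trace_fib, ← card_fib (L := TF β) (v0 β F)]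
  have h0 : φ₀ β ∈ fib (L := TF β) (v0 β F) := mem_fib.2 fun a => rfl
  rw [← add_sum_erase _ _ h0, φ₀_dickson (by linarith : β ≠ 0), add_sub_cancel_left]
  refine (norm_sum_le _ _).trans ?_
  have h1 : ∀ φ ∈ (fib (L := TF β) (v0 β F)).erase (φ₀ β),
      ‖φ (aeval (tt β) (dickson 1 (1 : ℤ) n))‖ ≤ 2 := by
    intro φ hφ
    exact norm_φ_other hβ hint hrec hone (ne_of_mem_erase hφ) n
  refine (sum_le_sum h1).trans ?_
  rw [sum_const, nsmul_eq_mul, card_erase_of_mem h0, mul_comm]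
  have h2 : 1 ≤ (fib (L := TF β) (v0 β F)).card := card_pos.2 ⟨_, h0⟩
  rw [Nat.cast_sub h2, Nat.cast_one]

lemma norm_S_le (hβ : 1 < β) (hint : IsIntegral ℤ β)
    (hrec : aeval β⁻¹ (minpoly ℤ β) = 0)
    (hone : ∀ z : ℂ, aeval z (minpoly ℤ β) = 0 → z ≠ (β : ℂ) → ‖z‖ ≤ 1) (n : ℕ) :
    ‖v0 β F (S β F n)‖ ≤ 2 * Module.finrank F (TF β) + (U β n - 2) := by
  have h1 := norm_S_self (F := F) hβ hint hrec hone n
  have h2 : ‖(U β n : ℂ)‖ = U β n := by
    rw [Complex.norm_real, Real.norm_eq_abs, abs_of_nonneg]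
    linarith [U_two_le (show (0 : ℝ) < β by linarith) n]
  have h3 : ‖v0 β F (S β F n)‖ ≤ ‖v0 β F (S β F n) - (U β n : ℂ)‖ + ‖(U β n : ℂ)‖ := by
    have := norm_add_le (v0 β F (S β F n) - (U β n : ℂ)) (U β n : ℂ)
    rwa [sub_add_cancel] at this
  linarith

lemma le_norm_S (hβ : 1 < β) (hint : IsIntegral ℤ β)
    (hrec : aeval β⁻¹ (minpoly ℤ β) = 0)
    (hone : ∀ z : ℂ, aeval z (minpoly ℤ β) = 0 → z ≠ (β : ℂ) → ‖z‖ ≤ 1) (n : ℕ) :
    U β n - 2 * (Module.finrank F (TF β) - 1) ≤ ‖v0 β F (S β F n)‖ := by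
  have h1 := norm_S_self (F := F) hβ hint hrec hone n
  have h2 : ‖(U β n : ℂ)‖ = U β n := by
    rw [Complex.norm_real, Real.norm_eq_abs, abs_of_nonneg]
    linarith [U_two_le (show (0 : ℝ) < β by linarith) n]
  have h3 : ‖(U β n : ℂ)‖ ≤ ‖v0 β F (S β F n)‖ + ‖v0 β F (S β F n) - (U β n : ℂ)‖ := by
    have := norm_sub_le (v0 β F (S β F n)) (v0 β F (S β F n) - (U β n : ℂ))
    rwa [sub_sub_cancel] at this
  linarith

/-- the bounds in one formula -/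
lemma norm_S_ite [DecidableEq (F →ₐ[ℚ] ℂ)] (hβ : 1 < β) (hint : IsIntegral ℤ β)
    (hrec : aeval β⁻¹ (minpoly ℤ β) = 0)
    (hone : ∀ z : ℂ, aeval z (minpoly ℤ β) = 0 → z ≠ (β : ℂ) → ‖z‖ ≤ 1) (n : ℕ)
    (v : F →ₐ[ℚ] ℂ) :
    ‖v (S β F n)‖ ≤ 2 * Module.finrank F (TF β) + if v = v0 β F then U β n - 2 else 0 := by
  split_ifs with h
  · rw [h]
    exact norm_S_le hβ hint hrec hone n
  · rw [add_zero]
    exact norm_S_other hβ hint hrec hone h n

/-- the congruence between the power sums -/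
lemma S_prime (ht : IsIntegral ℤ (tt β)) {p : ℕ} (hp : p.Prime) :
    ∃ y : F, IsIntegral ℤ y ∧ S β F p = S β F 1 ^ p + p * y := by
  haveI : Fact p.Prime := ⟨hp⟩
  obtain ⟨y1, hy1, h1⟩ := dickson_aeval p 1 ht
  rw [pow_one] at h1
  obtain ⟨y2, hy2, h2⟩ := trace_pow (F := F) (v0 β F) hp ht
  haveI : FiniteDimensional F (TF β) := FiniteDimensional.right ℚ F (TF β)
  refine ⟨y2 + Algebra.trace F (TF β) y1, hy2.add (Algebra.isIntegral_trace hy1), ?_⟩
  have h3 : S β F 1 = Algebra.trace F (TF β) (tt β) := by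
    unfold S
    rw [dickson_one, aeval_X]
  have h4 : Algebra.trace F (TF β) ((p : TF β) * y1) = p * Algebra.trace F (TF β) y1 := by
    rw [← nsmul_eq_mul, map_nsmul, nsmul_eq_mul]
  rw [h3]
  unfold S
  rw [h1, map_add, h2, h4]
  ring

lemma S_integral (ht : IsIntegral ℤ (tt β)) (n : ℕ) : IsIntegral ℤ (S β F n) := by
  haveI : FiniteDimensional F (TF β) := FiniteDimensional.right ℚ F (TF β)
  refine Algebra.isIntegral_trace ?_
  exact IsIntegral.of_mem_of_fg (Algebra.adjoin ℤ {tt β}) ht.fg_adjoin_singleton _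
      (aeval_mem_adjoin_singleton _ _)

end

end Pool.Agent.Q262.AB
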