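import Mathlib

/-!
# Congruences modulo a prime number in cyclotomic fields
-/

set_option autoImplicit false
set_option linter.unusedSectionVars false
set_option linter.style.haveILetI false

namespace Pool.Agent.Q262.AB

open Polynomial Module

lemma pow_expand (p : ℕ) [hp : Fact p.Prime] (f : ℤ[X]) :
    ∃ g : ℤ[X], f ^ p = expand ℤ p f + C (p : ℤ) * g := by
  have hdvd : C (p : ℤ) ∣ f ^ p - expand ℤ p f := by
    rw [C_dvd_iff_dvd_coeff]
    intro i
    have h1 : (f ^ p - expand ℤ p f).map (Int.castRingHom (ZMod p)) = 0 := by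
      rw [Polynomial.map_sub, Polynomial.map_pow, map_expand, ZMod.expand_card, sub_self]
    have h2 := congrArg (fun q => coeff q i) h1
    simp only [coeff_map, coeff_zero] at h2
    exact (ZMod.intCast_zmod_eq_zero_iff_dvd _ p).mp h2
  obtain ⟨g, hg⟩ := hdvd
  exact ⟨g, by rw [← hg]; ring⟩

/-- a subfield of the field generated by a root of unity embeds in a cyclotomic field -/
theorem emb_of_mem {k L F : Type} [Field k] [Field L] [Algebra k L] [Field F] [Algebra k F]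
    [Algebra.IsIntegral k L] {M : ℕ} [NeZero M] [NeZero (M : k)] {ξ : L} (hξ : IsPrimitiveRoot ξ M)
    (ι : F →ₐ[k] L) (hmem : ∀ a : F, ι a ∈ IntermediateField.adjoin k {ξ}) :
    Nonempty (F →ₐ[k] CyclotomicField M k) := by
  haveI := hξ.intermediateField_adjoin_isCyclotomicExtension k
  let e := IsCyclotomicExtension.algEquiv {M} k (IntermediateField.adjoin k {ξ})
    (CyclotomicField M k)
  exact ⟨e.toAlgHom.comp (ι.codRestrict (IntermediateField.adjoin k {ξ}).toSubalgebra hmem)⟩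

section

variable {K : Type} [Field K] [NumberField K] {N : ℕ} [NeZero N]
  [IsCyclotomicExtension {N} ℚ K]

lemma exists_poly {ζ : K} (hζ : IsPrimitiveRoot ζ N) {a : K} (ha : IsIntegral ℤ a) :
    ∃ f : ℤ[X], a = aeval ζ f := by
  have h := IsCyclotomicExtension.Rat.isIntegralClosure_adjoin_singleton hζ
  obtain ⟨y, hy⟩ := h.isIntegral_iff.mp ha
  have h2 : a ∈ Algebra.adjoin ℤ {ζ} := by
    rw [← hy]
    exact y.2
  rw [Algebra.adjoin_singleton_eq_range_aeval] at h2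
  obtain ⟨f, hf⟩ := h2
  exact ⟨f, hf.symm⟩

lemma isIntegral_aeval {ζ : K} (hζ : IsPrimitiveRoot ζ N) (g : ℤ[X]) :
    IsIntegral ℤ (aeval ζ g) := by
  have h1 : aeval ζ g ∈ Algebra.adjoin ℤ {ζ} := by
    rw [Algebra.adjoin_singleton_eq_range_aeval]
    exact ⟨g, rfl⟩
  exact (Algebra.adjoin_le (S := integralClosure ℤ K)
    (Set.singleton_subset_iff.mpr (hζ.isIntegral (NeZero.pos N)))) h1

lemma pow_aeval (p : ℕ) [Fact p.Prime] (ζ : K) (f : ℤ[X]) :
    ∃ g : ℤ[X], (aeval ζ f) ^ p = aeval (ζ ^ p) f + p * aeval ζ g := by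
  obtain ⟨g, hg⟩ := pow_expand p f
  refine ⟨g, ?_⟩
  have h := congrArg (aeval ζ) hg
  rw [map_pow, map_add, map_mul, expand_aeval, aeval_C] at h
  simpa using h

lemma aeval_alg (s : K ≃ₐ[ℚ] K) (x : K) (f : ℤ[X]) : aeval (s x) f = s (aeval x f) :=
  aeval_algHom_apply (s.toAlgHom.restrictScalars ℤ) x f

lemma exists_frob (p : ℕ) [hp : Fact p.Prime] {ζ : K} (hζ : IsPrimitiveRoot ζ N) (h5 : ¬ p ∣ N) :
    ∃ σ : K ≃ₐ[ℚ] K, σ ζ = ζ ^ p := by
  have hcop : Nat.Coprime p N := (Nat.Prime.coprime_iff_not_dvd hp.out).mpr h5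
  have hζ5 : IsPrimitiveRoot (ζ ^ p) N := hζ.pow_of_coprime p hcop
  have h1 : minpoly ℚ ζ = cyclotomic N ℚ := (cyclotomic_eq_minpoly_rat hζ (NeZero.pos N)).symm
  have h2 : minpoly ℚ (ζ ^ p) = cyclotomic N ℚ :=
    (cyclotomic_eq_minpoly_rat hζ5 (NeZero.pos N)).symm
  have hg : IsGalois ℚ K := IsCyclotomicExtension.isGalois {N} ℚ K
  have hc : IsConjRoot ℚ (ζ ^ p) ζ := by
    unfold IsConjRoot
    rw [h1, h2]
  obtain ⟨σ, hσ⟩ := hc.exists_algEquiv
  exact ⟨σ, hσ⟩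

/-- the two cases -/
theorem cases (p : ℕ) [hp : Fact p.Prime] {F : Type} [Field F] [Algebra ℚ F] (ι : F →ₐ[ℚ] K)
    (hmin : p ∣ N → ¬ Nonempty (F →ₐ[ℚ] CyclotomicField (N / p) ℚ)) :
    (∃ σ : K ≃ₐ[ℚ] K, ∀ x : K, IsIntegral ℤ x → ∃ y : K, IsIntegral ℤ y ∧ x ^ p = σ x + p * y) ∨
    ∃ σ : K ≃ₐ[ℚ] K, (∃ a : F, σ (ι a) ≠ ι a) ∧
      ∀ x : K, IsIntegral ℤ x → ∃ y : K, IsIntegral ℤ y ∧ x ^ p = (σ x) ^ p + p * y := by
  have hg : IsGalois ℚ K := IsCyclotomicExtension.isGalois {N} ℚ K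
  set ζ : K := IsCyclotomicExtension.zeta N ℚ K
  have hζ : IsPrimitiveRoot ζ N := IsCyclotomicExtension.zeta_spec N ℚ K
  by_cases h5 : p ∣ N
  · right
    have h1 := hmin h5
    obtain ⟨σ, hσ1, a, hσ2⟩ : ∃ σ : K ≃ₐ[ℚ] K, σ (ζ ^ p) = ζ ^ p ∧ ∃ a : F, σ (ι a) ≠ ι a := by
      by_contra hcon
      push Not at hcon
      apply h1
      have hmem : ∀ a : F, ι a ∈ IntermediateField.adjoin ℚ {ζ ^ p} := by
        intro a
        rw [← IsGalois.fixedField_fixingSubgroup (IntermediateField.adjoin ℚ {ζ ^ p}),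
          IntermediateField.mem_fixedField_iff]
        intro s hs
        refine hcon s ?_ a
        rw [IntermediateField.mem_fixingSubgroup_iff] at hs
        exact hs _ (IntermediateField.mem_adjoin_simple_self ℚ _)
      obtain ⟨M, hM⟩ := h5
      have hp0 : 0 < p := hp.out.pos
      have hN0 : N ≠ 0 := NeZero.ne N
      have hM0 : M ≠ 0 := by
        rintro rfl
        exact hN0 (by rw [hM, mul_zero])
      haveI : NeZero M := ⟨hM0⟩
      have hdiv : N / p = M := by rw [hM, Nat.mul_div_cancel_left _ hp0]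
      rw [hdiv]
      have hζM : IsPrimitiveRoot (ζ ^ p) M := hζ.pow (NeZero.pos N) hM
      exact emb_of_mem hζM ι hmem
    refine ⟨σ, ⟨a, hσ2⟩, fun x hx => ?_⟩
    obtain ⟨f, hf⟩ := exists_poly hζ hx
    obtain ⟨g, hg5⟩ := pow_aeval p ζ f
    rw [← hf] at hg5
    refine ⟨aeval ζ g - σ (aeval ζ g), ?_, ?_⟩
    · exact (isIntegral_aeval hζ g).sub ((isIntegral_aeval hζ g).map (σ.toAlgHom.restrictScalars ℤ))
    · have h2 : (σ x) ^ p = aeval (ζ ^ p) f + p * σ (aeval ζ g) := by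
        rw [← map_pow, hg5, map_add, map_mul, ← aeval_alg, hσ1, map_natCast]
      linear_combination hg5 - h2
  · left
    obtain ⟨σ, hσ⟩ := exists_frob p hζ h5
    refine ⟨σ, fun x hx => ?_⟩
    obtain ⟨f, hf⟩ := exists_poly hζ hx
    obtain ⟨g, hg5⟩ := pow_aeval p ζ f
    rw [← hf] at hg5
    refine ⟨aeval ζ g, isIntegral_aeval hζ g, ?_⟩
    have h2 : σ x = aeval (ζ ^ p) f := by
      rw [← hσ, aeval_alg, ← hf]
    rw [h2]
    exact hg5

end

end Pool.Agent.Q262.AB
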