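import Mathlib
import Pool.Agent.Q262.AB.Bd
import Pool.Agent.Q262.AB.Cyc

/-!
# The norm inequality
-/

set_option autoImplicit false
set_option linter.unusedSectionVars false
set_option linter.style.haveILetI false

open Finset Polynomial Pool.Agent.W738.SAL

namespace Pool.Agent.Q262.AB

section

variable {β : ℝ} {F : Type} [Field F] [Algebra ℚ F] [Algebra F (TF β)] [IsScalarTower ℚ F (TF β)]
  [FiniteDimensional ℚ (TF β)] {L : Type} [Field L] [Algebra ℚ L] [FiniteDimensional ℚ L]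

lemma exists_comp (a : F →ₐ[ℚ] L) (v : F →ₐ[ℚ] ℂ) : ∃ φ : L →ₐ[ℚ] ℂ, φ.comp a = v := by
  classical
  have h1 := card_comp a v
  by_contra hcon
  push Not at hcon
  have h2 : (univ.filter fun φ : L →ₐ[ℚ] ℂ => φ.comp a = v) = ∅ :=
    filter_eq_empty_iff.2 fun φ _ => hcon φ
  rw [h2, card_empty, zero_mul] at h1
  have h3 : 0 < Module.finrank ℚ L := Module.finrank_pos
  omega

theorem norm_ineq (hβ : 1 < β) (hint : IsIntegral ℤ β)
    (hrec : aeval β⁻¹ (minpoly ℤ β) = 0)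
    (hone : ∀ z : ℂ, aeval z (minpoly ℤ β) = 0 → z ≠ (β : ℂ) → ‖z‖ ≤ 1)
    (a b : F →ₐ[ℚ] L) {i j p : ℕ} (hi : U β i ≤ U β p) (hj : U β j ≤ U β p) {y : L}
    (hy : IsIntegral ℤ y) (h : a (S β F i) - b (S β F j) = p * y)
    (h0 : a (S β F i) - b (S β F j) ≠ 0) :
    (p : ℝ) ^ Module.finrank ℚ F ≤ (4 * (Module.finrank F (TF β) : ℝ)) ^ Module.finrank ℚ F *
      (1 + (U β p - 2) / (4 * Module.finrank F (TF β))) ^ 2 := by
  classical
  haveI : FiniteDimensional F (TF β) := FiniteDimensional.right ℚ F (TF β)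
  have hm : (1 : ℝ) ≤ Module.finrank F (TF β) := by
    exact_mod_cast (Module.finrank_pos : 0 < Module.finrank F (TF β))
  set m : ℝ := ((Module.finrank F (TF β) : ℕ) : ℝ) with hmdef
  set c : ℝ := (U β p - 2) / (4 * m) with hc
  have hU : 0 ≤ U β p - 2 := by linarith [U_two_le (show (0 : ℝ) < β by linarith) p]
  have hc0 : 0 ≤ c := div_nonneg hU (by linarith)
  have hcm : 4 * m * c = U β p - 2 := by
    rw [hc]
    field_simp
  have h1 := pow_le_prod hy h h0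
  have hfac : ∀ φ : L →ₐ[ℚ] ℂ, ‖φ (a (S β F i) - b (S β F j))‖ ≤
      4 * m * (if φ.comp a = v0 β F then 1 + c else 1) * (if φ.comp b = v0 β F then 1 + c else 1) := by
    intro φ
    have e1 := norm_S_ite hβ hint hrec hone i (φ.comp a)
    have e2 := norm_S_ite hβ hint hrec hone j (φ.comp b)
    have e3 : ‖φ (a (S β F i) - b (S β F j))‖ ≤ ‖(φ.comp a) (S β F i)‖ + ‖(φ.comp b) (S β F j)‖ := by
      rw [map_sub]
      exact norm_sub_le _ _
    rw [← hmdef] at e1 e2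
    have hx : 0 ≤ m * c := mul_nonneg (by linarith) hc0
    have hx2 : 0 ≤ m * c * c := mul_nonneg hx hc0
    split_ifs at e1 e2 ⊢ <;> nlinarith
  have h2 : ∏ φ : L →ₐ[ℚ] ℂ, ‖φ (a (S β F i) - b (S β F j))‖ ≤
      ∏ φ : L →ₐ[ℚ] ℂ, (4 * m * (if φ.comp a = v0 β F then 1 + c else 1) *
        (if φ.comp b = v0 β F then 1 + c else 1)) :=
    prod_le_prod (fun _ _ => norm_nonneg _) fun φ _ => hfac φ
  have h3 : ∀ x : F →ₐ[ℚ] L, ∏ φ : L →ₐ[ℚ] ℂ, (if φ.comp x = v0 β F then 1 + c else 1) =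
      (1 + c) ^ (univ.filter fun φ : L →ₐ[ℚ] ℂ => φ.comp x = v0 β F).card := by
    intro x
    rw [prod_ite, prod_const, prod_const_one, mul_one]
  rw [prod_mul_distrib, prod_mul_distrib, h3, h3, prod_const, card_univ, AlgHom.card ℚ L ℂ] at h2
  have ha := card_comp a (v0 β F)
  have hb := card_comp b (v0 β F)
  set e := (univ.filter fun φ : L →ₐ[ℚ] ℂ => φ.comp a = v0 β F).card with he
  have hL : 0 < Module.finrank ℚ L := Module.finrank_pos
  have hD : 0 < Module.finrank ℚ F := by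
    rcases Nat.eq_zero_or_pos (Module.finrank ℚ F) with h' | h'
    · rw [h', mul_zero] at ha
      omega
    · exact h'
  have he2 : (univ.filter fun φ : L →ₐ[ℚ] ℂ => φ.comp b = v0 β F).card = e :=
    Nat.eq_of_mul_eq_mul_right hD (hb.trans ha.symm)
  rw [he2] at h2
  have he0 : e ≠ 0 := by
    intro h'
    rw [h', zero_mul] at ha
    omega
  have h4 : ((p : ℝ) ^ Module.finrank ℚ F) ^ e ≤ ((4 * m) ^ Module.finrank ℚ F * (1 + c) ^ 2) ^ e := by
    rw [← pow_mul, mul_comm _ e, ha, mul_pow, ← pow_mul, mul_comm _ e, ha, ← pow_mul]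
    refine (h1.trans h2).trans (le_of_eq ?_)
    rw [mul_assoc, ← pow_add]
    congr 2
    ring
  exact (pow_le_pow_iff_left₀ (by positivity) (by positivity) he0).1 h4

lemma ne_zero_A (hβ : 1 < β) (hint : IsIntegral ℤ β)
    (hrec : aeval β⁻¹ (minpoly ℤ β) = 0)
    (hone : ∀ z : ℂ, aeval z (minpoly ℤ β) = 0 → z ≠ (β : ℂ) → ‖z‖ ≤ 1)
    (a b : F →ₐ[ℚ] L) {p : ℕ}
    (hU : 4 * (Module.finrank F (TF β) : ℝ) - 4 + U β 1 < U β p) :
    a (S β F p) - b (S β F 1) ≠ 0 := by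
  classical
  intro h0
  obtain ⟨φ, hφ⟩ := exists_comp a (v0 β F)
  have h1 : v0 β F (S β F p) = (φ.comp b) (S β F 1) := by
    rw [← hφ]
    exact congrArg φ (sub_eq_zero.1 h0)
  have h2 := le_norm_S (F := F) hβ hint hrec hone p
  have h3 := norm_S_ite hβ hint hrec hone 1 (φ.comp b)
  rw [h1] at h2
  have h4 : (if φ.comp b = v0 β F then U β 1 - 2 else 0) ≤ U β 1 - 2 := by
    split_ifs
    · exact le_rfl
    · linarith [U_two_le (show (0 : ℝ) < β by linarith) 1]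
  linarith

lemma ne_zero_B (hβ : 1 < β) (hint : IsIntegral ℤ β)
    (hrec : aeval β⁻¹ (minpoly ℤ β) = 0)
    (hone : ∀ z : ℂ, aeval z (minpoly ℤ β) = 0 → z ≠ (β : ℂ) → ‖z‖ ≤ 1)
    (a b : F →ₐ[ℚ] L) {p : ℕ} (hab : a ≠ b)
    (hU : 4 * (Module.finrank F (TF β) : ℝ) - 2 < U β p) :
    a (S β F p) - b (S β F p) ≠ 0 := by
  intro h0
  obtain ⟨φ, hφ⟩ := exists_comp a (v0 β F)
  have h1 : v0 β F (S β F p) = (φ.comp b) (S β F p) := by
    rw [← hφ]
    exact congrArg φ (sub_eq_zero.1 h0)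
  have h2 := le_norm_S (F := F) hβ hint hrec hone p
  have h3 : φ.comp b ≠ v0 β F := by
    intro h'
    apply hab
    ext x
    apply φ.injective
    have := congrArg (fun f : F →ₐ[ℚ] ℂ => f x) (hφ.trans h'.symm)
    exact this
  have h4 := norm_S_other hβ hint hrec hone h3 p
  rw [h1] at h2
  linarith

end

/-- **The inequality for all primes.** -/
theorem key {β : ℝ} {F : Type} [Field F] [Algebra ℚ F] [Algebra F (TF β)]
    [IsScalarTower ℚ F (TF β)] [FiniteDimensional ℚ (TF β)] (hβ : 1 < β) (hint : IsIntegral ℤ β)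
    (hrec : aeval β⁻¹ (minpoly ℤ β) = 0)
    (hone : ∀ z : ℂ, aeval z (minpoly ℤ β) = 0 → z ≠ (β : ℂ) → ‖z‖ ≤ 1)
    (ht : IsIntegral ℤ (tt β)) {N : ℕ} [NeZero N] {K : Type} [Field K] [NumberField K]
    [IsCyclotomicExtension {N} ℚ K] (ι : F →ₐ[ℚ] K)
    (hmin : ∀ M : ℕ, 0 < M → M < N → ¬ Nonempty (F →ₐ[ℚ] CyclotomicField M ℚ)) {p : ℕ}
    (hp : p.Prime) (hU : 4 * (Module.finrank F (TF β) : ℝ) - 4 + U β 1 < U β p) :
    (p : ℝ) ^ Module.finrank ℚ F ≤ (4 * (Module.finrank F (TF β) : ℝ)) ^ Module.finrank ℚ F *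
      (1 + (U β p - 2) / (4 * Module.finrank F (TF β))) ^ 2 := by
  haveI : Fact p.Prime := ⟨hp⟩
  have h2U := U_two_le (show (0 : ℝ) < β by linarith) 1
  obtain ⟨y, hy, hyS⟩ := S_prime (F := F) ht hp
  have hS1 : IsIntegral ℤ (ι (S β F 1)) := (S_integral ht 1).map (ι.restrictScalars ℤ)
  have hιy : IsIntegral ℤ (ι y) := hy.map (ι.restrictScalars ℤ)
  have hιS : ι (S β F p) = ι (S β F 1) ^ p + p * ι y := by
    rw [hyS, map_add, map_pow, map_mul, map_natCast]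
  have hm : p ∣ N → ¬ Nonempty (F →ₐ[ℚ] CyclotomicField (N / p) ℚ) := by
    intro hpN
    refine hmin (N / p) (Nat.div_pos (Nat.le_of_dvd (NeZero.pos N) hpN) hp.pos)
      (Nat.div_lt_self (NeZero.pos N) hp.one_lt)
  rcases cases p ι hm with ⟨σ, hσ⟩ | ⟨σ, ⟨x, hx⟩, hσ⟩
  · obtain ⟨z, hz, hzz⟩ := hσ _ hS1
    refine norm_ineq hβ hint hrec hone ι (σ.toAlgHom.comp ι) (i := p) (j := 1) le_rfl
      (U_lt hβ hp.one_lt).le (hz.add hιy) ?_ (ne_zero_A hβ hint hrec hone ι _ hU)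
    have h1 : (σ.toAlgHom.comp ι) (S β F 1) = σ (ι (S β F 1)) := rfl
    rw [h1, hιS, hzz]
    ring
  · obtain ⟨z, hz, hzz⟩ := hσ _ hS1
    have hne : ι ≠ σ.toAlgHom.comp ι := by
      intro h'
      apply hx
      exact (congrArg (fun f : F →ₐ[ℚ] K => f x) h').symm
    have hσy : IsIntegral ℤ (σ (ι y)) := hιy.map (σ.toAlgHom.restrictScalars ℤ)
    refine norm_ineq hβ hint hrec hone ι (σ.toAlgHom.comp ι) (i := p) (j := p) le_rfl le_rfl
      ((hz.add hιy).sub hσy) ?_ (ne_zero_B hβ hint hrec hone ι _ hne (by linarith))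
    have h1 : (σ.toAlgHom.comp ι) (S β F p) = σ (ι (S β F p)) := rfl
    rw [h1, hιS, map_add, map_pow, map_mul, map_natCast, hzz]
    ring

end Pool.Agent.Q262.AB
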