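import Mathlib
import Pool.Agent.Q262.AB.Key

/-!
# Congruences modulo powers of a prime number for the relative power sums
-/

set_option autoImplicit false
set_option linter.unusedSectionVars false
set_option linter.style.haveILetI false

open Finset Polynomial Pool.Agent.W738.SAL

namespace Pool.Agent.Q262.AB

/-- Witt coordinates of a sum of Teichmüller representatives. -/
theorem ghost_sum {B : Type*} [CommRing B] {p : ℕ} [hp : Fact p.Prime] {ι : Type*} (s : Finset ι)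
    (w : ι → B) : ∃ c : ℕ → B, ∀ n : ℕ,
      ∑ i ∈ s, w i ^ p ^ n = ∑ j ∈ range (n + 1), (p : B) ^ j * c j ^ p ^ (n - j) := by
  refine ⟨(∑ i ∈ s, WittVector.teichmuller p (w i)).coeff, fun n => ?_⟩
  have h1 : WittVector.ghostComponent n (∑ i ∈ s, WittVector.teichmuller p (w i)) =
      ∑ i ∈ s, w i ^ p ^ n := by
    rw [map_sum]
    exact sum_congr rfl fun i _ => WittVector.ghostComponent_teichmuller p (w i) n
  rw [← h1, WittVector.ghostComponent_apply, aeval_wittPolynomial]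

/-- The same over a subfield which contains all the sums of powers. -/
theorem exists_coord {F : Type} [Field F] [Algebra ℚ F] (v : F →ₐ[ℚ] ℂ) {p : ℕ}
    [hp : Fact p.Prime] {ι : Type*} (T : Finset ι) (w : ι → ℂ) (hw : ∀ i ∈ T, IsIntegral ℤ (w i))
    (s : ℕ → F) (hs : ∀ n, v (s n) = ∑ i ∈ T, w i ^ p ^ n) :
    ∃ c : ℕ → F, (∀ j, IsIntegral ℤ (c j)) ∧
      ∀ n, s n = ∑ j ∈ range (n + 1), (p : F) ^ j * c j ^ p ^ (n - j) := by
  classical
  obtain ⟨c, hc⟩ := ghost_sum (p := p) (B := integralClosure ℤ ℂ) T.attach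
    fun i => ⟨w i.1, hw i.1 i.2⟩
  have hc' : ∀ n, v (s n) = ∑ j ∈ range (n + 1), (p : ℂ) ^ j * (c j : ℂ) ^ p ^ (n - j) := by
    intro n
    have h1 := congrArg (fun z : integralClosure ℤ ℂ => (z : ℂ)) (hc n)
    simp only [SubmonoidClass.coe_pow, AddSubmonoidClass.coe_finsetSum, Subalgebra.coe_mul] at h1
    rw [hs, ← sum_attach]
    exact h1
  have hp0 : (p : ℂ) ≠ 0 := by exact_mod_cast hp.out.ne_zero
  have hrange : ∀ j, ∃ x : F, v x = (c j : ℂ) := by
    intro j
    induction j using Nat.strong_induction_on with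
    | _ j ih =>
      choose! x hx using ih
      refine ⟨(s j - ∑ i ∈ range j, (p : F) ^ i * x i ^ p ^ (j - i)) / (p : F) ^ j, ?_⟩
      rw [map_div₀, map_sub, map_sum, hc' j, sum_range_succ, map_pow, map_natCast,
        div_eq_iff (pow_ne_zero _ hp0), Nat.sub_self, pow_zero, pow_one]
      have h2 : ∑ i ∈ range j, v ((p : F) ^ i * x i ^ p ^ (j - i)) =
          ∑ i ∈ range j, (p : ℂ) ^ i * (c i : ℂ) ^ p ^ (j - i) := by
        refine sum_congr rfl fun i hi => ?_
        rw [map_mul, map_pow, map_pow, map_natCast, hx i (mem_range.1 hi)]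
      rw [h2]
      ring
  choose x hx using hrange
  refine ⟨x, fun j => ?_, fun n => ?_⟩
  · have h3 : IsIntegral ℤ (v (x j)) := by
      rw [hx]
      exact (c j).2
    exact (isIntegral_algHom_iff (v.restrictScalars ℤ) v.injective).1 h3
  · apply v.injective
    show v (s n) = v (∑ j ∈ range (n + 1), (p : F) ^ j * x j ^ p ^ (n - j))
    rw [hc', map_sum]
    refine sum_congr rfl fun j _ => ?_
    rw [map_mul, map_pow, map_pow, map_natCast, hx]

/-- The congruence modulo `p ^ (k + 1)`. -/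
theorem cong_pow {F L : Type} [Field F] [Field L] [Algebra ℚ F] [Algebra ℚ L] {p : ℕ}
    [hp : Fact p.Prime] (a b : F →ₐ[ℚ] L)
    (hab : ∀ x : F, IsIntegral ℤ x → ∃ y : L, IsIntegral ℤ y ∧ a x ^ p = b x + p * y)
    (s c : ℕ → F) (hc : ∀ j, IsIntegral ℤ (c j))
    (hs : ∀ n, s n = ∑ j ∈ range (n + 1), (p : F) ^ j * c j ^ p ^ (n - j)) (k : ℕ) :
    ∃ y : L, IsIntegral ℤ y ∧ a (s (k + 1)) - b (s k) = ((p ^ (k + 1) : ℕ) : L) * y := by
  have ha : ∀ j, IsIntegral ℤ (a (c j)) := fun j => (hc j).map (a.restrictScalars ℤ)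
  have hb : ∀ j, IsIntegral ℤ (b (c j)) := fun j => (hc j).map (b.restrictScalars ℤ)
  let A : ℕ → integralClosure ℤ L := fun j => ⟨a (c j), ha j⟩
  let B : ℕ → integralClosure ℤ L := fun j => ⟨b (c j), hb j⟩
  have h1 : ∀ j, (p : integralClosure ℤ L) ∣ A j ^ p - B j := by
    intro j
    obtain ⟨y, hy, h⟩ := hab (c j) (hc j)
    refine ⟨⟨y, hy⟩, Subtype.ext ?_⟩
    show a (c j) ^ p - b (c j) = (p : L) * y
    rw [h]
    ring
  have h2 : ∀ j ∈ range (k + 1), ((p : integralClosure ℤ L) ^ (k + 1)) ∣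
      (p : integralClosure ℤ L) ^ j * A j ^ p ^ (k + 1 - j) -
        (p : integralClosure ℤ L) ^ j * B j ^ p ^ (k - j) := by
    intro j hj
    rw [mem_range] at hj
    have e1 : k + 1 - j = 1 + (k - j) := by omega
    have e2 : k + 1 = j + (k - j + 1) := by omega
    rw [← mul_sub, e1, pow_add p, pow_one, pow_mul, e2, pow_add]
    exact mul_dvd_mul_left _ (dvd_sub_pow_of_dvd_sub (h1 j) (k - j))
  have h3 : ((p : integralClosure ℤ L) ^ (k + 1)) ∣
      ∑ j ∈ range (k + 1 + 1), (p : integralClosure ℤ L) ^ j * A j ^ p ^ (k + 1 - j) -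
        ∑ j ∈ range (k + 1), (p : integralClosure ℤ L) ^ j * B j ^ p ^ (k - j) := by
    rw [sum_range_succ, add_sub_right_comm, ← sum_sub_distrib]
    refine dvd_add (dvd_sum h2) ?_
    rw [Nat.sub_self, pow_zero, pow_one]
    exact dvd_mul_right _ _
  obtain ⟨y, hy⟩ := h3
  refine ⟨y, y.2, ?_⟩
  have h4 := congrArg (fun z : integralClosure ℤ L => (z : L)) hy
  simp only [Subalgebra.coe_sub, Subalgebra.coe_mul, SubmonoidClass.coe_pow,
    AddSubmonoidClass.coe_finsetSum] at h4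
  rw [hs, hs, map_sum, map_sum]
  have h5 : ∀ j, a ((p : F) ^ j * c j ^ p ^ (k + 1 - j)) = (p : L) ^ j * a (c j) ^ p ^ (k + 1 - j) := by
    intro j
    rw [map_mul, map_pow, map_pow, map_natCast]
  have h6 : ∀ j, b ((p : F) ^ j * c j ^ p ^ (k - j)) = (p : L) ^ j * b (c j) ^ p ^ (k - j) := by
    intro j
    rw [map_mul, map_pow, map_pow, map_natCast]
  simp only [h5, h6]
  push_cast
  exact h4

section

variable {β : ℝ} {F : Type} [Field F] [Algebra ℚ F] [Algebra F (TF β)] [IsScalarTower ℚ F (TF β)]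
  [FiniteDimensional ℚ (TF β)]

/-- The relative power sums are power sums of algebraic integers. -/
theorem S_coord (hβ : 1 < β) (hint : IsIntegral ℤ β) (hrec : aeval β⁻¹ (minpoly ℤ β) = 0)
    (p : ℕ) [hp : Fact p.Prime] : ∃ c : ℕ → F, (∀ j, IsIntegral ℤ (c j)) ∧
      ∀ n, S β F (p ^ n) = ∑ j ∈ range (n + 1), (p : F) ^ j * c j ^ p ^ (n - j) := by
  classical
  choose w hw0 hw1 hw2 hw3 using fun φ : TF β →ₐ[ℚ] ℂ => exists_root hint hrec (by linarith : β ≠ 0) φ
  have hmon : (minpoly ℤ β).Monic := minpoly.monic hint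
  refine exists_coord (v0 β F) ((fib (L := TF β) (v0 β F)) ×ˢ (univ : Finset Bool))
    (fun i => if i.2 then w i.1 else (w i.1)⁻¹) ?_ _ fun n => ?_
  · rintro ⟨φ, b⟩ _
    cases b
    · exact ⟨minpoly ℤ β, hmon, hw2 φ⟩
    · exact ⟨minpoly ℤ β, hmon, hw1 φ⟩
  · unfold S
    rw [trace_fib, sum_product]
    refine sum_congr rfl fun φ _ => ?_
    rw [φ_dickson φ _ (p ^ n) (hw0 φ) (hw3 φ), Fintype.sum_bool]
    simp

/-- **The congruence for the relative power sums.** -/
theorem S_cong (hβ : 1 < β) (hint : IsIntegral ℤ β) (hrec : aeval β⁻¹ (minpoly ℤ β) = 0)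
    {p : ℕ} (hp : p.Prime) {L : Type} [Field L] [Algebra ℚ L] (a b : F →ₐ[ℚ] L)
    (hab : ∀ x : F, IsIntegral ℤ x → ∃ y : L, IsIntegral ℤ y ∧ a x ^ p = b x + p * y) (k : ℕ) :
    ∃ y : L, IsIntegral ℤ y ∧
      a (S β F (p ^ (k + 1))) - b (S β F (p ^ k)) = ((p ^ (k + 1) : ℕ) : L) * y := by
  haveI : Fact p.Prime := ⟨hp⟩
  obtain ⟨c, hc, hs⟩ := S_coord (F := F) hβ hint hrec p
  exact cong_pow a b hab (fun n => S β F (p ^ n)) c hc hs k

end

end Pool.Agent.Q262.AB
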