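import Mathlib
import Pool.Agent.W738.SAL.E

/-!
# The choice of the prime number
-/

set_option autoImplicit false

open Pool.Agent.W738.SAL

namespace Pool.Agent.Q262.AB

lemma log_ge {x : ℝ} (h2 : 2 ≤ x) (h4 : x ≤ 4) : x / 2 * Real.log 2 ≤ Real.log x := by
  have h := strictConcaveOn_log_Ioi.concaveOn.2 (show (2 : ℝ) ∈ Set.Ioi 0 by norm_num)
    (show (4 : ℝ) ∈ Set.Ioi 0 by norm_num) (show (0 : ℝ) ≤ (4 - x) / 2 by linarith)
    (show (0 : ℝ) ≤ (x - 2) / 2 by linarith) (by ring)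
  simp only [smul_eq_mul] at h
  have h1 : (4 - x) / 2 * 2 + (x - 2) / 2 * 4 = x := by ring
  have h3 : Real.log 4 = 2 * Real.log 2 := by
    rw [show (4 : ℝ) = 2 ^ 2 by norm_num, Real.log_pow]
    norm_num
  rw [h1, h3] at h
  linarith

lemma U_double {β : ℝ} (hβ : 0 < β) (r : ℕ) : U β (2 * r) = U β r ^ 2 - 2 := by
  unfold U
  have h1 : β ^ r * (β⁻¹) ^ r = 1 := by
    rw [← mul_pow, mul_inv_cancel₀ hβ.ne', one_pow]
  rw [mul_comm 2 r, pow_mul, pow_mul]
  linear_combination (-2) * h1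

lemma U_mono_nat {β : ℝ} (hβ : 1 < β) {a b : ℕ} (h : a ≤ b) : U β a ≤ U β b := by
  rcases Nat.eq_or_lt_of_le h with rfl | h
  · exact le_rfl
  · exact (U_lt hβ h).le

/-- large primes exist -/
lemma exists_prime_U {β : ℝ} (hβ : 1 < β) (Z : ℝ) : ∃ q : ℕ, q.Prime ∧ Z < U β q := by
  obtain ⟨n, hn⟩ := pow_unbounded_of_one_lt Z hβ
  obtain ⟨q, hq1, hq2⟩ := Nat.exists_infinite_primes n
  refine ⟨q, hq2, ?_⟩
  have h1 : Z < U β n := by
    unfold U
    have : 0 < (β⁻¹) ^ n := by positivity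
    linarith
  exact h1.trans_le (U_mono_nat hβ hq1)

theorem num {β : ℝ} (hβ : 1 < β) {m D : ℕ} (hm : 1 ≤ m) (hD : 1 ≤ D)
    (h1 : (4 * (m : ℝ) - 2) ^ 2 ≤ 2 ^ D) (h2 : β ^ (16 * m) < 2 ^ D)
    (hkey : ∀ p : ℕ, p.Prime → 4 * (m : ℝ) - 4 + U β 1 < U β p →
      (p : ℝ) ^ D ≤ (4 * (m : ℝ)) ^ D * (1 + (U β p - 2) / (4 * m)) ^ 2) : False := by
  classical
  have hm' : (1 : ℝ) ≤ m := by exact_mod_cast hm
  have hD' : (1 : ℝ) ≤ D := by exact_mod_cast hD
  have hβ0 : (0 : ℝ) < β := by linarith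
  obtain ⟨p0, hp0, hp1, hp2⟩ := Nat.exists_prime_lt_and_le_two_mul (8 * m) (by omega)
  have hp1' : 8 * (m : ℝ) < p0 := by exact_mod_cast hp1
  have hp2' : (p0 : ℝ) ≤ 16 * m := by
    have : p0 ≤ 16 * m := by omega
    exact_mod_cast this
  by_cases h0 : 4 * (m : ℝ) - 4 + U β 1 < U β p0
  · -- the first case
    have h3 := hkey p0 hp0 h0
    have hp00 : (0 : ℝ) < p0 := by exact_mod_cast hp0.pos
    have hY : 1 + (U β p0 - 2) / (4 * m) ≤ β ^ p0 := by
      have hb : 1 ≤ β ^ p0 := one_le_pow₀ hβ.le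
      have hb2 : (β⁻¹) ^ p0 ≤ 1 := pow_le_one₀ (by positivity) (inv_le_one_of_one_le₀ hβ.le)
      have hb3 : (U β p0 - 2) / (4 * m) ≤ (β ^ p0 - 1) / (4 * m) := by
        unfold U
        exact div_le_div_of_nonneg_right (by linarith) (by positivity)
      have hb4 : (β ^ p0 - 1) / (4 * m) ≤ β ^ p0 - 1 := by
        refine div_le_self (by linarith) ?_
        linarith
      linarith
    have hY0 : 0 < 1 + (U β p0 - 2) / (4 * m) := by
      have : 0 ≤ (U β p0 - 2) / (4 * m) :=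
        div_nonneg (by linarith [U_two_le hβ0 p0]) (by linarith)
      linarith
    have h4 : (p0 : ℝ) ^ D ≤ (4 * (m : ℝ)) ^ D * (β ^ p0) ^ 2 := by
      refine h3.trans (mul_le_mul_of_nonneg_left ?_ (by positivity))
      exact pow_le_pow_left₀ hY0.le hY 2
    have h5 := Real.log_le_log (by positivity) h4
    rw [Real.log_mul (by positivity) (by positivity), Real.log_pow, Real.log_pow, Real.log_pow,
      Real.log_pow] at h5
    have h6 := Real.log_lt_log (by positivity) h2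
    rw [Real.log_pow, Real.log_pow] at h6
    push_cast at h5 h6
    set x : ℝ := p0 / (4 * m) with hx
    have hx2 : 2 ≤ x := by
      rw [hx, le_div_iff₀ (by linarith)]
      linarith
    have hx4 : x ≤ 4 := by
      rw [hx, div_le_iff₀ (by linarith)]
      linarith
    have h7 := log_ge hx2 hx4
    have h8 : Real.log x = Real.log p0 - Real.log (4 * m) := by
      rw [hx, Real.log_div hp00.ne' (by positivity)]
    have h9 : (p0 : ℝ) = x * (4 * m) := by
      rw [hx]
      field_simp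
    have h10 : 2 * ((p0 : ℝ) * Real.log β) = x / 2 * (16 * m * Real.log β) := by
      rw [h9]
      ring
    have h11 : x / 2 * (16 * m * Real.log β) < x / 2 * (D * Real.log 2) :=
      mul_lt_mul_of_pos_left h6 (by linarith)
    have h12 : (D : ℝ) * (x / 2 * Real.log 2) ≤ D * Real.log x :=
      mul_le_mul_of_nonneg_left h7 (by linarith)
    rw [h8] at h12
    nlinarith
  · -- the second case
    push Not at h0
    set Z : ℝ := 4 * (m : ℝ) - 4 + U β 1 with hZ
    have hex := exists_prime_U hβ Z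
    have hspec := Nat.find_spec hex
    have hmin := fun k => Nat.find_min hex (m := k)
    set p := Nat.find hex with hpdef
    obtain ⟨hp, hpU⟩ := hspec
    have hpp0 : p0 < p := by
      by_contra hc
      push Not at hc
      linarith [U_mono_nat hβ hc]
    -- the previous prime
    obtain ⟨r, hr, hr1, hr2⟩ := Nat.exists_prime_lt_and_le_two_mul ((p - 1) / 2) (by omega)
    have hrp : r < p := by omega
    have hpr : p ≤ 2 * r := by omega
    have hrU : U β r ≤ Z := by
      by_contra hc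
      push Not at hc
      exact hmin r hrp ⟨hr, hc⟩
    have hr0 := U_two_le hβ0 r
    have hUp : U β p ≤ Z ^ 2 - 2 := by
      have e1 := U_mono_nat hβ hpr
      rw [U_double hβ0] at e1
      have e2 : U β r ^ 2 ≤ Z ^ 2 := pow_le_pow_left₀ (by linarith) hrU 2
      linarith
    -- the size of `β`
    have hinv : β⁻¹ ≤ 1 := inv_le_one_of_one_le₀ hβ.le
    have hU1 : U β 1 = β + β⁻¹ := by unfold U; rw [pow_one, pow_one]
    have hb1 : 1 + (p0 : ℝ) * (β - 1) ≤ β ^ p0 := by
      have := one_add_mul_le_pow (show (-2 : ℝ) ≤ β - 1 by linarith) p0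
      rwa [add_sub_cancel] at this
    have hb2 : β ^ p0 ≤ U β p0 := by
      unfold U
      have : 0 < (β⁻¹) ^ p0 := by positivity
      linarith
    have hb3 : β - 1 ≤ 1 / 2 := by
      have e1 : 8 * (m : ℝ) * (β - 1) ≤ p0 * (β - 1) :=
        mul_le_mul_of_nonneg_right hp1'.le (by linarith)
      by_contra hc
      push Not at hc
      have e2 : (8 * (m : ℝ) - 1) * (1 / 2) < (8 * (m : ℝ) - 1) * (β - 1) :=
        mul_lt_mul_of_pos_left hc (by linarith)
      linarith
    have hc0 : U β 1 - 2 = (β - 1) ^ 2 * β⁻¹ := by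
      rw [hU1]
      field_simp
      ring
    have hc1 : U β 1 - 2 ≤ 1 / 2 := by
      rw [hc0]
      have e1 : (β - 1) ^ 2 ≤ 1 / 2 := by nlinarith
      calc (β - 1) ^ 2 * β⁻¹ ≤ (β - 1) ^ 2 * 1 := mul_le_mul_of_nonneg_left hinv (sq_nonneg _)
        _ ≤ 1 / 2 := by linarith
    have hc2 : 0 ≤ U β 1 - 2 := by linarith [U_two_le hβ0 1]
    have hY : 1 + (U β p - 2) / (4 * m) ≤ 4 * m - 2 := by
      have e1 : (U β p - 2) / (4 * m) ≤ 4 * m - 3 := by
        rw [div_le_iff₀ (by linarith)]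
        have e2 : Z ^ 2 - 4 ≤ (4 * (m : ℝ) - 3) * (4 * m) := by
          rw [hZ]
          nlinarith
        linarith
      linarith
    have hY0 : 0 ≤ 1 + (U β p - 2) / (4 * m) := by
      have : 0 ≤ (U β p - 2) / (4 * m) :=
        div_nonneg (by linarith [U_two_le hβ0 p]) (by linarith)
      linarith
    have h3 := hkey p hp hpU
    have h4 : (1 + (U β p - 2) / (4 * m)) ^ 2 ≤ 2 ^ D := (pow_le_pow_left₀ hY0 hY 2).trans h1
    have h5 : (p : ℝ) ^ D ≤ (4 * (m : ℝ)) ^ D * 2 ^ D :=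
      h3.trans (mul_le_mul_of_nonneg_left h4 (by positivity))
    rw [← mul_pow] at h5
    have h6 : 4 * (m : ℝ) * 2 < p := by
      have : (p0 : ℝ) < p := by exact_mod_cast hpp0
      linarith
    have h7 : (4 * (m : ℝ) * 2) ^ D < (p : ℝ) ^ D := pow_lt_pow_left₀ h6 (by positivity) (by omega)
    linarith

end Pool.Agent.Q262.AB
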