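import Mathlib
import Pool.Agent.H196R3.ParryB
import Pool.Agent.H338R2.Smyth2
import Pool.Agent.W738.SAL.E

/-!
# Small Perron numbers with infinitely many Parry powers are reciprocal
-/

set_option autoImplicit false

open Polynomial Pool.Agent.W738.SAL

namespace Pool.Agent.Q262.AB

theorem isReciprocal {β : ℝ} (hP : IsPerron β) (h : β < 1.28) (hinf : ¬ (ParryPowers β).Finite) :
    IsReciprocal β := by
  have hone : ∀ z : ℂ, aeval z (minpoly ℤ β) = 0 → z ≠ (β : ℂ) → ‖z‖ ≤ 1 :=
    fun z hz hne => one_of_inf hP hinf hz hne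
  have hint := hP.2.1
  have hβ := hP.1
  have hM := Pool.Agent.H196R3.Parry.mahler_eq hβ hint hone
  set f := minpoly ℤ β with hf
  have hmon : f.Monic := minpoly.monic hint
  have hc1 : |f.coeff 0| = 1 := by
    have h1 := norm_coeff_le_choose_mul_mahlerMeasure 0 (f.map (Int.castRingHom ℂ))
    rw [hM, Nat.choose_zero_right, Nat.cast_one, one_mul, coeff_map] at h1
    have h2 : ‖(Int.castRingHom ℂ) (f.coeff 0)‖ = |((f.coeff 0 : ℤ) : ℝ)| := by
      rw [eq_intCast, Complex.norm_intCast]
    rw [h2] at h1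
    have h3 : |((f.coeff 0 : ℤ) : ℝ)| < 2 := by linarith
    have h4 : |f.coeff 0| < 2 := by exact_mod_cast h3
    have h5 : f.coeff 0 ≠ 0 := by
      intro h0
      have h6 : aeval (0 : ℂ) f = 0 := by
        rw [aeval_def, eval₂_at_zero, h0]
        simp
      exact Pool.Agent.H196R3.Parry.conj_ne_zero hβ hint h6 rfl
    have h7 : 0 < |f.coeff 0| := abs_pos.2 h5
    omega
  by_contra hrec
  have hne : f ≠ C (f.coeff 0) * f.reverse := by
    intro h1
    apply hrec
    unfold IsReciprocal
    rw [← hf, h1, map_mul]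
    have hβ0 : β ≠ 0 := by linarith
    have h2 : aeval β⁻¹ f.reverse = 0 := by
      let _ : Invertible β := invertibleOfNonzero hβ0
      have := (eval₂_reverse_eq_zero_iff (algebraMap ℤ ℝ) β f).mpr (minpoly.aeval ℤ β)
      rwa [invOf_eq_inv] at this
    rw [h2, mul_zero]
  have h8 := Pool.Agent.H338R2.smyth_lite hmon hc1 hne
  change (f.map (Int.castRingHom ℂ)).mahlerMeasure ≤
      2 * ((f.map (Int.castRingHom ℂ)).mahlerMeasure ^ 2 - 1) at h8
  rw [hM] at h8
  nlinarith

end Pool.Agent.Q262.AB
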