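import Mathlib
import Pool.Agent.Q262.AB.Key
import Pool.Agent.Q262.AB.Num
import Pool.Agent.Q262.AB.Rec

/-!
# Abelian subfields of the trace field
-/

set_option autoImplicit false
set_option linter.style.haveILetI false

open Polynomial Pool.Agent.W738.SAL

namespace Pool.Agent.Q262.AB

section

variable {F : Type} [Field F] [Algebra ℚ F]

theorem main {β : ℝ} [Algebra F (TF β)] [IsScalarTower ℚ F (TF β)] (hP : IsPerron β)
    (hrec : IsReciprocal β ∨ β < 1.28)
    (hF : ∃ N : ℕ, 0 < N ∧ Nonempty (F →ₐ[ℚ] CyclotomicField N ℚ))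
    (h1 : (4 * (Module.finrank F (TF β) : ℝ) - 2) ^ 2 ≤ 2 ^ Module.finrank ℚ F)
    (h2 : β ^ (16 * Module.finrank F (TF β)) < 2 ^ Module.finrank ℚ F) :
    (ParryPowers β).Finite := by
  classical
  by_contra hinf
  have hrec' : IsReciprocal β := by
    rcases hrec with h | h
    · exact h
    · exact isReciprocal hP h hinf
  haveI := tf_finite hP hrec'
  haveI : FiniteDimensional F (TF β) := FiniteDimensional.right ℚ F (TF β)
  haveI : FiniteDimensional ℚ F := FiniteDimensional.left ℚ F (TF β)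
  have hspec := Nat.find_spec hF
  have hmin := fun k => Nat.find_min hF (m := k)
  set N := Nat.find hF with hN
  obtain ⟨hN0, ⟨ι⟩⟩ := hspec
  haveI : NeZero N := ⟨hN0.ne'⟩
  haveI : IsCyclotomicExtension {N} ℚ (CyclotomicField N ℚ) :=
    CyclotomicField.isCyclotomicExtension N ℚ
  refine num hP.1 (m := Module.finrank F (TF β)) (D := Module.finrank ℚ F)
    (Module.finrank_pos) (Module.finrank_pos) h1 h2 ?_
  intro p hp hU
  exact key (F := F) hP.1 hP.2.1 hrec' (fun z hz hne => one_of_inf hP hinf hz hne)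
    (tt_integral hP hrec') (N := N) ι (fun M hM hMN hne => hmin M hMN ⟨hM, hne⟩) hp hU

theorem main4 {β : ℝ} [Algebra F (TF β)] [IsScalarTower ℚ F (TF β)] (hP : IsPerron β)
    (hβ : β ^ 4 < 2)
    (hF : ∃ N : ℕ, 0 < N ∧ Nonempty (F →ₐ[ℚ] CyclotomicField N ℚ))
    (hm : 4 * Module.finrank F (TF β) ≤ Module.finrank ℚ F) :
    (ParryPowers β).Finite := by
  by_contra hinf
  have h128 : β < 1.28 := by
    by_contra hc
    push Not at hc
    have := pow_le_pow_left₀ (by norm_num) hc 4
    norm_num at this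
    linarith
  have hrec := isReciprocal hP h128 hinf
  haveI := tf_finite hP hrec
  haveI : FiniteDimensional F (TF β) := FiniteDimensional.right ℚ F (TF β)
  haveI : FiniteDimensional ℚ F := FiniteDimensional.left ℚ F (TF β)
  have hm0 : 0 < Module.finrank F (TF β) := Module.finrank_pos
  apply hinf
  refine main hP (Or.inl hrec) hF ?_ ?_
  · have h3 : (2 : ℝ) ^ (4 * Module.finrank F (TF β)) ≤ 2 ^ Module.finrank ℚ F :=
      pow_le_pow_right₀ (by norm_num) hm
    refine le_trans ?_ h3
    have h4 : ∀ m : ℕ, 0 < m → (4 * (m : ℝ) - 2) ^ 2 ≤ 2 ^ (4 * m) := by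
      intro m hm
      have h5 : (m : ℝ) + 1 ≤ 2 ^ m := by
        have := Nat.lt_two_pow_self (n := m)
        exact_mod_cast this
      have h6 : (1 : ℝ) ≤ m := by exact_mod_cast hm
      have h7 : 4 * (m : ℝ) ≤ (2 ^ m) ^ 2 := by nlinarith
      have h8 : 4 * (m : ℝ) - 2 ≤ (2 ^ m) ^ 2 := by linarith
      calc (4 * (m : ℝ) - 2) ^ 2 ≤ ((2 ^ m) ^ 2) ^ 2 := pow_le_pow_left₀ (by linarith) h8 2
        _ = 2 ^ (4 * m) := by rw [← pow_mul, ← pow_mul]; congr 1; ring
    exact h4 _ hm0
  · calc β ^ (16 * Module.finrank F (TF β)) = (β ^ 4) ^ (4 * Module.finrank F (TF β)) := by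
          rw [← pow_mul]; congr 1; ring
      _ < 2 ^ (4 * Module.finrank F (TF β)) :=
          pow_lt_pow_left₀ hβ (by have := hP.1; positivity) (by omega)
      _ ≤ 2 ^ Module.finrank ℚ F := pow_le_pow_right₀ (by norm_num) hm

end

/-- the relative degree of a subfield -/
theorem degrees {β : ℝ} (hint : IsIntegral ℤ β) (F : IntermediateField ℚ ℝ) (hF : F ≤ TF β)
    {D m : ℕ} (hD : Module.finrank ℚ F = D) (hm : Module.finrank ℚ (TF β) = D * m) :
    letI := (IntermediateField.inclusion hF).toRingHom.toAlgebra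
    IsScalarTower ℚ F (TF β) ∧ Module.finrank F (TF β) = m := by
  letI : Algebra F (TF β) := (IntermediateField.inclusion hF).toRingHom.toAlgebra
  have h1 : IsScalarTower ℚ F (TF β) := IsScalarTower.of_algebraMap_eq fun q => rfl
  refine ⟨h1, ?_⟩
  have hQ : IsIntegral ℚ β := hint.tower_top
  haveI : FiniteDimensional ℚ (TF β) :=
    IntermediateField.adjoin.finiteDimensional (hQ.add hQ.inv)
  haveI : FiniteDimensional ℚ F := FiniteDimensional.left ℚ F (TF β)
  have h2 := Module.finrank_mul_finrank ℚ F (TF β)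
  have h3 : 0 < Module.finrank ℚ F := Module.finrank_pos
  rw [hm, ← hD] at h2
  exact Nat.eq_of_mul_eq_mul_left h3 h2

end Pool.Agent.Q262.AB
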