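import Mathlib
import Pool.Agent.Q262.AB.Witt

/-!
# The norm inequalities for powers of a prime number
-/

set_option autoImplicit false
set_option linter.unusedSectionVars false
set_option linter.style.haveILetI false

open Finset Polynomial Pool.Agent.W738.SAL

namespace Pool.Agent.Q262.AB

section

variable {β : ℝ} {F : Type} [Field F] [Algebra ℚ F] [Algebra F (TF β)] [IsScalarTower ℚ F (TF β)]
  [FiniteDimensional ℚ (TF β)] {L : Type} [Field L] [Algebra ℚ L] [FiniteDimensional ℚ L]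

/-- the norm estimate, in an abstract form -/
theorem norm_abs (a b : F →ₐ[ℚ] L) (v : F →ₐ[ℚ] ℂ) {Q : ℕ} {y z : L} (hy : IsIntegral ℤ y)
    (h : z = Q * y) (h0 : z ≠ 0) {M c c' : ℝ} (hM : 0 < M) (hc : 0 ≤ c) (hc' : 0 ≤ c')
    [DecidableEq (F →ₐ[ℚ] ℂ)]
    (hz : ∀ φ : L →ₐ[ℚ] ℂ, ‖φ z‖ ≤ M * (if φ.comp a = v then 1 + c else 1) *
      (if φ.comp b = v then 1 + c' else 1)) :
    (Q : ℝ) ^ Module.finrank ℚ F ≤ M ^ Module.finrank ℚ F * ((1 + c) * (1 + c')) := by
  classical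
  have h1 := pow_le_prod hy h h0
  have h2 : ∏ φ : L →ₐ[ℚ] ℂ, ‖φ z‖ ≤
      ∏ φ : L →ₐ[ℚ] ℂ, (M * (if φ.comp a = v then 1 + c else 1) *
        (if φ.comp b = v then 1 + c' else 1)) :=
    prod_le_prod (fun _ _ => norm_nonneg _) fun φ _ => hz φ
  have h3 : ∀ (x : F →ₐ[ℚ] L) (e : ℝ), ∏ φ : L →ₐ[ℚ] ℂ, (if φ.comp x = v then 1 + e else 1) =
      (1 + e) ^ (univ.filter fun φ : L →ₐ[ℚ] ℂ => φ.comp x = v).card := by
    intro x e
    rw [prod_ite, prod_const, prod_const_one, mul_one]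
  rw [prod_mul_distrib, prod_mul_distrib, h3, h3, prod_const, card_univ, AlgHom.card ℚ L ℂ] at h2
  have ha := card_comp a v
  have hb := card_comp b v
  set e := (univ.filter fun φ : L →ₐ[ℚ] ℂ => φ.comp a = v).card with he
  have hL : 0 < Module.finrank ℚ L := Module.finrank_pos
  have hD : 0 < Module.finrank ℚ F := by
    rcases Nat.eq_zero_or_pos (Module.finrank ℚ F) with h' | h'
    · rw [h', mul_zero] at ha
      omega
    · exact h'
  have he2 : (univ.filter fun φ : L →ₐ[ℚ] ℂ => φ.comp b = v).card = e :=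
    Nat.eq_of_mul_eq_mul_right hD (hb.trans ha.symm)
  rw [he2] at h2
  have he0 : e ≠ 0 := by
    intro h'
    rw [h', zero_mul] at ha
    omega
  have h4 : ((Q : ℝ) ^ Module.finrank ℚ F) ^ e ≤
      (M ^ Module.finrank ℚ F * ((1 + c) * (1 + c'))) ^ e := by
    rw [← pow_mul, mul_comm _ e, ha, mul_pow, ← pow_mul, mul_comm _ e, ha, mul_pow, ← mul_assoc]
    exact h1.trans h2
  exact (pow_le_pow_iff_left₀ (by positivity) (by positivity) he0).1 h4

variable (hβ : 1 < β) (hint : IsIntegral ℤ β)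
    (hrec : aeval β⁻¹ (minpoly ℤ β) = 0)
    (hone : ∀ z : ℂ, aeval z (minpoly ℤ β) = 0 → z ≠ (β : ℂ) → ‖z‖ ≤ 1)

include hβ hint hrec hone

theorem norm_ineq2 (a b : F →ₐ[ℚ] L) {i j Q : ℕ} {y : L}
    (hy : IsIntegral ℤ y) (h : a (S β F i) - b (S β F j) = Q * y)
    (h0 : a (S β F i) - b (S β F j) ≠ 0) :
    (Q : ℝ) ^ Module.finrank ℚ F ≤ (4 * (Module.finrank F (TF β) : ℝ)) ^ Module.finrank ℚ F *
      ((1 + (U β i - 2) / (4 * Module.finrank F (TF β))) *
        (1 + (U β j - 2) / (4 * Module.finrank F (TF β)))) := by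
  classical
  haveI : FiniteDimensional F (TF β) := FiniteDimensional.right ℚ F (TF β)
  have hm : (1 : ℝ) ≤ Module.finrank F (TF β) := by
    exact_mod_cast (Module.finrank_pos : 0 < Module.finrank F (TF β))
  have hUi : 0 ≤ U β i - 2 := by linarith [U_two_le (show (0 : ℝ) < β by linarith) i]
  have hUj : 0 ≤ U β j - 2 := by linarith [U_two_le (show (0 : ℝ) < β by linarith) j]
  have hci : 0 ≤ (U β i - 2) / (4 * Module.finrank F (TF β)) := div_nonneg hUi (by linarith)
  have hcj : 0 ≤ (U β j - 2) / (4 * Module.finrank F (TF β)) := div_nonneg hUj (by linarith)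
  refine norm_abs a b (v0 β F) hy h h0 (by linarith) hci hcj fun φ => ?_
  have hmi : 4 * (Module.finrank F (TF β) : ℝ) * ((U β i - 2) / (4 * Module.finrank F (TF β))) =
      U β i - 2 := by field_simp
  have hmj : 4 * (Module.finrank F (TF β) : ℝ) * ((U β j - 2) / (4 * Module.finrank F (TF β))) =
      U β j - 2 := by field_simp
  have e1 := norm_S_ite hβ hint hrec hone i (φ.comp a)
  have e2 := norm_S_ite hβ hint hrec hone j (φ.comp b)
  have e3 : ‖φ (a (S β F i) - b (S β F j))‖ ≤ ‖(φ.comp a) (S β F i)‖ + ‖(φ.comp b) (S β F j)‖ := by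
    rw [map_sub]
    exact norm_sub_le _ _
  set ci := (U β i - 2) / (4 * (Module.finrank F (TF β) : ℝ))
  set cj := (U β j - 2) / (4 * (Module.finrank F (TF β) : ℝ))
  have hij : 0 ≤ 4 * (Module.finrank F (TF β) : ℝ) * ci * cj := by
    rw [hmi]
    exact mul_nonneg hUi hcj
  split_ifs at e1 e2 ⊢ <;> nlinarith

theorem norm_ineq3 (a : F →ₐ[ℚ] L) {i j Q : ℕ} {y : L}
    (hy : IsIntegral ℤ y) (h : a (S β F i) - a (S β F j) = Q * y)
    (h0 : a (S β F i) - a (S β F j) ≠ 0) :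
    (Q : ℝ) ^ Module.finrank ℚ F ≤ (4 * (Module.finrank F (TF β) : ℝ)) ^ Module.finrank ℚ F *
      (1 + (U β i + U β j - 4) / (4 * Module.finrank F (TF β))) := by
  classical
  haveI : FiniteDimensional F (TF β) := FiniteDimensional.right ℚ F (TF β)
  have hm : (1 : ℝ) ≤ Module.finrank F (TF β) := by
    exact_mod_cast (Module.finrank_pos : 0 < Module.finrank F (TF β))
  have hUi : 0 ≤ U β i - 2 := by linarith [U_two_le (show (0 : ℝ) < β by linarith) i]
  have hUj : 0 ≤ U β j - 2 := by linarith [U_two_le (show (0 : ℝ) < β by linarith) j]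
  have hci : 0 ≤ (U β i + U β j - 4) / (4 * Module.finrank F (TF β)) :=
    div_nonneg (by linarith) (by linarith)
  have h1 := norm_abs a a (v0 β F) hy h h0 (M := 4 * (Module.finrank F (TF β) : ℝ)) (by linarith)
    hci le_rfl fun φ => ?_
  · rwa [add_zero, mul_one] at h1
  have hmi : 4 * (Module.finrank F (TF β) : ℝ) *
      ((U β i + U β j - 4) / (4 * Module.finrank F (TF β))) = U β i + U β j - 4 := by field_simp
  have e1 := norm_S_ite hβ hint hrec hone i (φ.comp a)
  have e2 := norm_S_ite hβ hint hrec hone j (φ.comp a)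
  have e3 : ‖φ (a (S β F i) - a (S β F j))‖ ≤ ‖(φ.comp a) (S β F i)‖ + ‖(φ.comp a) (S β F j)‖ := by
    rw [map_sub]
    exact norm_sub_le _ _
  split_ifs at e1 e2 ⊢ <;> nlinarith

lemma ne_zero_C (a b : F →ₐ[ℚ] L) {i j : ℕ}
    (hU : 4 * (Module.finrank F (TF β) : ℝ) - 4 + U β j < U β i) :
    a (S β F i) - b (S β F j) ≠ 0 := by
  classical
  intro h0
  obtain ⟨φ, hφ⟩ := exists_comp a (v0 β F)
  have h1 : v0 β F (S β F i) = (φ.comp b) (S β F j) := by
    rw [← hφ]
    exact congrArg φ (sub_eq_zero.1 h0)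
  have h2 := le_norm_S (F := F) hβ hint hrec hone i
  have h3 := norm_S_ite hβ hint hrec hone j (φ.comp b)
  rw [h1] at h2
  have h4 : (if φ.comp b = v0 β F then U β j - 2 else 0) ≤ U β j - 2 := by
    split_ifs
    · exact le_rfl
    · linarith [U_two_le (show (0 : ℝ) < β by linarith) j]
  linarith

end

end Pool.Agent.Q262.AB
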