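import Mathlib
import Pool.Agent.Q262.AB.Num

/-!
# The choice of the power of the prime number
-/

set_option autoImplicit false

open Pool.Agent.W738.SAL

namespace Pool.Agent.Q262.AB

lemma log_ge2 {p x0 x : ℝ} (hp : 1 < p) (hx0 : 0 < x0) (hlog : (p - 1) * Real.log x0 = Real.log p)
    (h1 : x0 ≤ x) (h2 : x ≤ p * x0) : x / x0 * Real.log x0 ≤ Real.log x := by
  have hp1 : 0 < p - 1 := by linarith
  set s : ℝ := (x / x0 - 1) / (p - 1) with hs
  have hxx : 1 ≤ x / x0 := by rw [le_div_iff₀ hx0]; linarith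
  have hxp : x / x0 ≤ p := by rw [div_le_iff₀ hx0]; linarith
  have hs0 : 0 ≤ s := div_nonneg (by linarith) hp1.le
  have hs1 : s ≤ 1 := by rw [hs, div_le_one hp1]; linarith
  have h := strictConcaveOn_log_Ioi.concaveOn.2 (show x0 ∈ Set.Ioi 0 from hx0)
    (show p * x0 ∈ Set.Ioi 0 from mul_pos (by linarith) hx0) (show (0 : ℝ) ≤ 1 - s by linarith)
    hs0 (by ring)
  simp only [smul_eq_mul] at h
  have e0 : s * (p - 1) = x / x0 - 1 := by
    rw [hs]
    field_simp
  have e1 : (1 - s) * x0 + s * (p * x0) = x := by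
    have : (1 - s) * x0 + s * (p * x0) = (1 + s * (p - 1)) * x0 := by ring
    rw [this, e0]
    field_simp
    ring
  have e2 : Real.log (p * x0) = Real.log p + Real.log x0 := Real.log_mul (by linarith) hx0.ne'
  rw [e1, e2] at h
  have e3 : x / x0 * Real.log x0 = Real.log x0 + s * Real.log p := by
    rw [← hlog]
    have : x / x0 = 1 + s * (p - 1) := by rw [e0]; ring
    rw [this]
    ring
  rw [e3]
  linarith

lemma one_add_U_le {β : ℝ} (hβ : 1 < β) {m : ℝ} (hm : 1 ≤ m) (n : ℕ) :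
    1 + (U β n - 2) / (4 * m) ≤ β ^ n := by
  have hb : 1 ≤ β ^ n := one_le_pow₀ hβ.le
  have hb2 : (β⁻¹) ^ n ≤ 1 := pow_le_one₀ (by positivity) (inv_le_one_of_one_le₀ hβ.le)
  have hb3 : (U β n - 2) / (4 * m) ≤ (β ^ n - 1) / (4 * m) := by
    unfold U
    exact div_le_div_of_nonneg_right (by linarith) (by linarith)
  have hb4 : (β ^ n - 1) / (4 * m) ≤ β ^ n - 1 := div_le_self (by linarith) (by linarith)
  linarith

lemma one_add_U_pos {β : ℝ} (hβ : 1 < β) {m : ℝ} (hm : 1 ≤ m) (n : ℕ) :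
    1 ≤ 1 + (U β n - 2) / (4 * m) := by
  have : 0 ≤ (U β n - 2) / (4 * m) :=
    div_nonneg (by linarith [U_two_le (show (0 : ℝ) < β by linarith) n]) (by linarith)
  linarith

lemma U_pow_le {β : ℝ} (hβ : 1 < β) (n p : ℕ) (hp : 1 ≤ p) : U β (p * n) ≤ U β n ^ p := by
  unfold U
  rw [mul_comm p n, pow_mul, pow_mul]
  have ha : 0 ≤ β ^ n := by positivity
  have hb : 0 ≤ (β⁻¹) ^ n := by positivity
  have h1 : ∀ a b : ℝ, 0 ≤ a → 0 ≤ b → a ^ p + b ^ p ≤ (a + b) ^ p := by
    intro a b ha hb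
    induction p, hp using Nat.le_induction with
    | base => simp
    | succ p hp ih =>
      have e1 : 0 ≤ a ^ p := by positivity
      have e2 : 0 ≤ b ^ p := by positivity
      calc a ^ (p + 1) + b ^ (p + 1) ≤ (a ^ p + b ^ p) * (a + b) := by
            rw [pow_succ, pow_succ]
            nlinarith [mul_nonneg e1 hb, mul_nonneg e2 ha]
        _ ≤ (a + b) ^ p * (a + b) := mul_le_mul_of_nonneg_right ih (by linarith)
        _ = (a + b) ^ (p + 1) := by rw [pow_succ]
  exact h1 _ _ ha hb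

lemma pow_sub_le {a b : ℝ} (hb : 0 ≤ b) (hab : b ≤ a) {p : ℕ} (hp : 1 ≤ p) :
    (a - b) * a ^ (p - 1) ≤ a ^ p - b ^ p := by
  obtain ⟨q, rfl⟩ : ∃ q, p = q + 1 := ⟨p - 1, by omega⟩
  rw [Nat.add_sub_cancel, pow_succ, pow_succ]
  have h1 : b ^ q ≤ a ^ q := pow_le_pow_left₀ hb hab q
  nlinarith

/-- large powers -/
lemma exists_pow_U {β : ℝ} (hβ : 1 < β) {p : ℕ} (hp : 2 ≤ p) (Z : ℝ) (n : ℕ) :
    ∃ k : ℕ, n < k ∧ Z < U β (p ^ k) := by
  obtain ⟨j, hj⟩ := pow_unbounded_of_one_lt Z hβ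
  refine ⟨n + 1 + j, by omega, ?_⟩
  have h1 : Z < U β j := by
    unfold U
    have : 0 < (β⁻¹) ^ j := by positivity
    linarith
  have h2 : j ≤ p ^ (n + 1 + j) := by
    have e1 : j < p ^ j := Nat.lt_pow_self (by omega)
    have e2 : p ^ j ≤ p ^ (n + 1 + j) := Nat.pow_le_pow_right (by omega) (by omega)
    omega
  exact h1.trans_le (U_mono_nat hβ h2)

lemma U_two_mul_le {β : ℝ} (hβ : 1 < β) {p : ℕ} (hp : 2 ≤ p) (n : ℕ) :
    U β n ^ 2 - 2 ≤ U β (p * n) := by
  rw [← U_double (by linarith : 0 < β)]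
  exact U_mono_nat hβ (Nat.mul_le_mul_right n hp)

theorem num2 {β : ℝ} (hβ : 1 < β) {m D p : ℕ} (hm : 1 ≤ m) (hD : 1 ≤ D) (hp : 2 ≤ p)
    (hs : m = 1 ∨ (5 * m) ^ (p - 1) ≤ p ^ D) {x0 κ : ℝ} (hx0 : 0 < x0) (hx0p : x0 ^ (p - 1) = p)
    (h2 : 4 * (m : ℝ) * ((p : ℝ) - 1) * x0 * (κ * Real.log β) < D * Real.log p) (Y : ℕ → ℝ)
    (hY0 : ∀ k, 1 ≤ Y (k + 1))
    (hY1 : ∀ k, Real.log (Y (k + 1)) ≤ κ * (p : ℝ) ^ (k + 1) * Real.log β)
    (hY2 : ∀ k, Y (k + 1) ≤ (1 + (U β (p ^ (k + 1)) - 2) / (4 * m)) *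
      (1 + (U β (p ^ k) - 2) / (4 * m)))
    (hkey : ∀ k : ℕ, 4 * (m : ℝ) - 4 + U β (p ^ k) < U β (p ^ (k + 1)) →
      ((p ^ (k + 1) : ℕ) : ℝ) ^ D ≤ (4 * (m : ℝ)) ^ D * Y (k + 1)) : False := by
  classical
  have hm' : (1 : ℝ) ≤ m := by exact_mod_cast hm
  have hD' : (1 : ℝ) ≤ D := by exact_mod_cast hD
  have hp' : (2 : ℝ) ≤ p := by exact_mod_cast hp
  have hβ0 : (0 : ℝ) < β := by linarith
  have hp1 : ((p - 1 : ℕ) : ℝ) = (p : ℝ) - 1 := by
    rw [Nat.cast_sub (by omega), Nat.cast_one]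
  have hlog : ((p : ℝ) - 1) * Real.log x0 = Real.log p := by
    rw [← hp1, ← Real.log_pow, hx0p]
  have hlogp : 0 < Real.log p := Real.log_pos (by linarith)
  have hx01 : 1 < x0 := by
    by_contra hc
    push Not at hc
    have : x0 ^ (p - 1) ≤ 1 := pow_le_one₀ hx0.le hc
    rw [hx0p] at this
    linarith
  -- the first power
  have hex0 : ∃ k : ℕ, 4 * (m : ℝ) * x0 < (p : ℝ) ^ k :=
    pow_unbounded_of_one_lt _ (by linarith)
  have hk0s := Nat.find_spec hex0
  have hk0m := fun k => Nat.find_min hex0 (m := k)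
  set k0 := Nat.find hex0 with hk0def
  have hk00 : k0 ≠ 0 := by
    intro h
    rw [h, pow_zero] at hk0s
    nlinarith
  obtain ⟨k1, hk1⟩ : ∃ k1, k0 = k1 + 1 := ⟨k0 - 1, by omega⟩
  have hk1s : (p : ℝ) ^ k1 ≤ 4 * m * x0 := by
    have := hk0m k1 (by omega)
    push Not at this
    exact this
  by_cases h0 : 4 * (m : ℝ) - 4 + U β (p ^ k1) < U β (p ^ (k1 + 1))
  · -- the first case
    have h3 := hkey k1 h0
    have hYp := hY0 k1
    have h5 := Real.log_le_log (by positivity) h3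
    rw [Real.log_mul (by positivity) (by positivity), Real.log_pow, Real.log_pow] at h5
    push_cast at h5
    set q : ℝ := (p : ℝ) ^ (k1 + 1) with hq
    have hq0 : 0 < q := by positivity
    set x : ℝ := q / (4 * m) with hx
    have hx2 : x0 ≤ x := by
      rw [hx, le_div_iff₀ (by linarith)]
      rw [hk1] at hk0s
      linarith
    have hx4 : x ≤ p * x0 := by
      rw [hx, div_le_iff₀ (by linarith), hq, pow_succ]
      nlinarith
    have h7 := log_ge2 (by linarith) hx0 hlog hx2 hx4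
    have h8 : Real.log x = Real.log q - Real.log (4 * m) := by
      rw [hx, Real.log_div hq0.ne' (by positivity)]
    have h9 : q = x * (4 * m) := by
      rw [hx]
      field_simp
    have hx0x : 0 < x := by linarith
    have h10 := hY1 k1
    rw [← hq] at h10
    -- combine
    have h11 : (D : ℝ) * Real.log x ≤ κ * q * Real.log β := by
      rw [h8]
      linarith
    have h12 : (D : ℝ) * (x / x0 * Real.log x0) ≤ κ * q * Real.log β :=
      (mul_le_mul_of_nonneg_left h7 (by linarith)).trans h11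
    have h13 : 0 < x / (x0 * ((p : ℝ) - 1)) := div_pos hx0x (mul_pos hx0 (by linarith))
    have h14 := mul_lt_mul_of_pos_left h2 h13
    have h15 : x / (x0 * ((p : ℝ) - 1)) * (4 * (m : ℝ) * ((p : ℝ) - 1) * x0 * (κ * Real.log β)) =
        κ * q * Real.log β := by
      rw [h9]
      have hne : (p : ℝ) - 1 ≠ 0 := by linarith
      field_simp
    have h16 : x / (x0 * ((p : ℝ) - 1)) * ((D : ℝ) * Real.log p) =
        (D : ℝ) * (x / x0 * Real.log x0) := by
      rw [← hlog]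
      have hne : (p : ℝ) - 1 ≠ 0 := by linarith
      field_simp
    rw [h15, h16] at h14
    linarith
  · -- the second case
    have hex : ∃ k : ℕ, k1 < k ∧ 4 * (m : ℝ) - 4 + U β (p ^ k) < U β (p ^ (k + 1)) := by
      obtain ⟨k, hk, hkU⟩ := exists_pow_U hβ hp (4 * m) k1
      refine ⟨k, hk, ?_⟩
      have e1 := U_two_mul_le hβ hp (p ^ k)
      rw [← pow_succ'] at e1
      have e2 : 4 * (m : ℝ) * U β (p ^ k) < U β (p ^ k) ^ 2 := by
        rw [pow_two]
        exact mul_lt_mul_of_pos_right hkU (by linarith)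
      nlinarith
    have hspec := Nat.find_spec hex
    have hmin := fun k => Nat.find_min hex (m := k)
    set k := Nat.find hex with hkdef
    obtain ⟨hk1k, hkU⟩ := hspec
    -- the previous one
    obtain ⟨j, hj⟩ : ∃ j, k = j + 1 := ⟨k - 1, by omega⟩
    have hjU : U β (p ^ (j + 1)) ≤ 4 * (m : ℝ) - 4 + U β (p ^ j) := by
      by_contra hc
      push Not at hc
      rcases Nat.lt_or_ge k1 j with h' | h'
      · exact hmin j (by omega) ⟨h', hc⟩
      · have : j = k1 := by omega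
        rw [this] at hc
        exact h0 hc
    have hlt : U β (p ^ j) < U β (p ^ (j + 1)) :=
      U_lt hβ (Nat.pow_lt_pow_right (by omega) (by omega))
    rcases hs with hs | hs
    · rw [hs] at hjU
      push_cast at hjU
      linarith
    · have hu2 := U_two_le hβ0 (p ^ j)
      have hyu := U_two_mul_le hβ hp (p ^ j)
      rw [← pow_succ'] at hyu
      have hu : U β (p ^ j) ≤ m + 3 / 2 := by
        by_contra hc
        push Not at hc
        nlinarith [sq_nonneg ((m : ℝ) - 1)]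
      set y := U β (p ^ (j + 1)) with hy
      have hy5 : y ≤ 5 * m - 5 / 2 := by linarith
      have hy2 : 2 ≤ y := by linarith
      have hUq : U β (p ^ (k + 1)) ≤ y ^ p := by
        have e1 := U_pow_le hβ (p ^ (j + 1)) p (by omega)
        rw [← pow_succ'] at e1
        rw [hj]
        exact e1
      have hUq2 : U β (p ^ (k + 1)) + (4 * m - 2) ≤ (5 * (m : ℝ)) ^ p := by
        have e1 : y ^ p ≤ (5 * (m : ℝ) - 5 / 2) ^ p := pow_le_pow_left₀ (by linarith) hy5 p
        have e2 := pow_sub_le (a := 5 * (m : ℝ)) (b := 5 * (m : ℝ) - 5 / 2) (by linarith)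
          (by linarith) (p := p) (by omega)
        have e3 : 5 * (m : ℝ) ≤ (5 * (m : ℝ)) ^ (p - 1) := by
          have := pow_le_pow_right₀ (show (1 : ℝ) ≤ 5 * m by linarith) (show 1 ≤ p - 1 by omega)
          rwa [pow_one] at this
        nlinarith
      have hf1 : 1 + (U β (p ^ (k + 1)) - 2) / (4 * m) ≤ (5 * (m : ℝ)) ^ p / (4 * m) := by
        rw [le_div_iff₀ (by linarith), add_mul, div_mul_cancel₀ _ (by linarith)]
        linarith
      have hf2 : 1 + (U β (p ^ k) - 2) / (4 * m) ≤ 9 / 4 := by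
        have e1 : (U β (p ^ k) - 2) / (4 * m) ≤ 5 / 4 := by
          rw [div_le_iff₀ (by linarith), hj, ← hy]
          linarith
        linarith
      have hf3 := one_add_U_pos hβ hm' (p ^ (k + 1))
      have hf4 := one_add_U_pos hβ hm' (p ^ k)
      have hYk : Y (k + 1) ≤ 3 * (5 * (m : ℝ)) ^ (p - 1) := by
        refine (hY2 k).trans ?_
        have e1 : (1 + (U β (p ^ (k + 1)) - 2) / (4 * m)) * (1 + (U β (p ^ k) - 2) / (4 * m)) ≤
            (5 * (m : ℝ)) ^ p / (4 * m) * (9 / 4) :=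
          mul_le_mul hf1 hf2 (by linarith) (by positivity)
        refine e1.trans ?_
        have e2 : (5 * (m : ℝ)) ^ p = (5 * (m : ℝ)) ^ (p - 1) * (5 * m) := by
          rw [← pow_succ]
          congr 1
          omega
        rw [e2]
        have e3 : (5 * (m : ℝ)) ^ (p - 1) * (5 * m) / (4 * m) * (9 / 4) =
            45 / 16 * (5 * (m : ℝ)) ^ (p - 1) := by
          field_simp
          ring
        rw [e3]
        have e4 : 0 ≤ (5 * (m : ℝ)) ^ (p - 1) := by positivity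
        linarith
      have hs' : (5 * (m : ℝ)) ^ (p - 1) ≤ (p : ℝ) ^ D := by exact_mod_cast hs
      have hx0D : 5 * (m : ℝ) ≤ x0 ^ D := by
        have e1 : (5 * (m : ℝ)) ^ (p - 1) ≤ (x0 ^ D) ^ (p - 1) := by
          rw [← pow_mul, mul_comm D, pow_mul, hx0p]
          exact hs'
        exact (pow_le_pow_iff_left₀ (by positivity) (by positivity) (by omega)).1 e1
      have h3 := hkey k hkU
      have hq : 4 * (m : ℝ) * ((p : ℝ) * x0) < ((p ^ (k + 1) : ℕ) : ℝ) := by
        push_cast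
        rw [hk1] at hk0s
        have e1 : (p : ℝ) ^ (k1 + 1) ≤ (p : ℝ) ^ k :=
          pow_le_pow_right₀ (by linarith) (by omega)
        rw [pow_succ]
        nlinarith
      have h7 : (4 * (m : ℝ) * ((p : ℝ) * x0)) ^ D < ((p ^ (k + 1) : ℕ) : ℝ) ^ D :=
        pow_lt_pow_left₀ hq (by positivity) (by omega)
      have h8 : (4 * (m : ℝ) * ((p : ℝ) * x0)) ^ D = (4 * (m : ℝ)) ^ D * ((p : ℝ) ^ D * x0 ^ D) := by
        rw [mul_pow, mul_pow (p : ℝ)]
      have h9 : (4 * (m : ℝ)) ^ D * Y (k + 1) ≤ (4 * (m : ℝ)) ^ D * ((p : ℝ) ^ D * x0 ^ D) := by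
        refine mul_le_mul_of_nonneg_left ?_ (by positivity)
        have e1 : 0 < (p : ℝ) ^ D := by positivity
        have e2 : (p : ℝ) ^ D * 5 ≤ (p : ℝ) ^ D * x0 ^ D :=
          mul_le_mul_of_nonneg_left (by linarith) e1.le
        linarith
      rw [h8] at h7
      linarith

end Pool.Agent.Q262.AB
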