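import Mathlib
import Pool.Agent.Q262.AB.Key2
import Pool.Agent.Q262.AB.Num2
import Pool.Agent.Q262.AB.Rec
import Pool.Agent.Q262.AB.Fin

/-!
# Subfields of the trace field with a lift of the Frobenius map
-/

set_option autoImplicit false
set_option linter.style.haveILetI false

open Polynomial Pool.Agent.W738.SAL

namespace Pool.Agent.Q262.AB

section

variable {F : Type} [Field F] [Algebra ℚ F]

theorem mainB {β : ℝ} [Algebra F (TF β)] [IsScalarTower ℚ F (TF β)] (hP : IsPerron β)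
    (hrec : IsReciprocal β ∨ β < 1.28) {p : ℕ} (hp : p.Prime) (φ : F →ₐ[ℚ] F)
    (hφ : ∀ x : F, IsIntegral ℤ x → ∃ y : F, IsIntegral ℤ y ∧ x ^ p = φ x + p * y)
    (hs : Module.finrank F (TF β) = 1 ∨
      (5 * Module.finrank F (TF β)) ^ (p - 1) ≤ p ^ Module.finrank ℚ F) {x0 : ℝ} (hx0 : 0 < x0)
    (hx0p : x0 ^ (p - 1) = p)
    (h2 : 4 * (Module.finrank F (TF β) : ℝ) * ((p : ℝ) - 1) * x0 * ((1 + 1 / p) * Real.log β) <
      Module.finrank ℚ F * Real.log p) :
    (ParryPowers β).Finite := by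
  classical
  by_contra hinf
  have hrec' : IsReciprocal β := by
    rcases hrec with h | h
    · exact h
    · exact isReciprocal hP h hinf
  have hβ := hP.1
  have hβ0 : (0 : ℝ) < β := by linarith
  have hone : ∀ z : ℂ, aeval z (minpoly ℤ β) = 0 → z ≠ (β : ℂ) → ‖z‖ ≤ 1 :=
    fun z hz hne => one_of_inf hP hinf hz hne
  haveI := tf_finite hP hrec'
  haveI : FiniteDimensional F (TF β) := FiniteDimensional.right ℚ F (TF β)
  haveI : FiniteDimensional ℚ F := FiniteDimensional.left ℚ F (TF β)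
  have hm : (1 : ℝ) ≤ Module.finrank F (TF β) := by
    exact_mod_cast (Module.finrank_pos : 0 < Module.finrank F (TF β))
  have hp0 : (0 : ℝ) < p := by exact_mod_cast hp.pos
  refine num2 hβ (m := Module.finrank F (TF β)) (D := Module.finrank ℚ F) (p := p)
    (Module.finrank_pos) (Module.finrank_pos) hp.two_le hs hx0 hx0p h2
    (fun k => (1 + (U β (p ^ k) - 2) / (4 * Module.finrank F (TF β))) *
      (1 + (U β (p ^ (k - 1)) - 2) / (4 * Module.finrank F (TF β)))) ?_ ?_ ?_ ?_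
  · intro k
    exact one_le_mul_of_one_le_of_one_le (one_add_U_pos hβ hm _) (one_add_U_pos hβ hm _)
  · intro k
    rw [Nat.add_sub_cancel]
    have e1 := one_add_U_pos hβ hm (p ^ (k + 1))
    have e2 := one_add_U_pos hβ hm (p ^ k)
    have e3 := Real.log_le_log (by linarith) (one_add_U_le hβ hm (p ^ (k + 1)))
    have e4 := Real.log_le_log (by linarith) (one_add_U_le hβ hm (p ^ k))
    rw [Real.log_pow] at e3 e4
    rw [Real.log_mul (by linarith) (by linarith)]
    refine (add_le_add e3 e4).trans (le_of_eq ?_)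
    push_cast
    field_simp
    ring
  · intro k
    rw [Nat.add_sub_cancel]
  · intro k hU
    rw [Nat.add_sub_cancel]
    obtain ⟨y, hy, hyy⟩ := S_cong hβ hP.2.1 hrec' hp (AlgHom.id ℚ F) φ hφ k
    exact norm_ineq2 hβ hP.2.1 hrec' hone (AlgHom.id ℚ F) φ hy hyy
      (ne_zero_C hβ hP.2.1 hrec' hone _ _ hU)

theorem mainC {β : ℝ} [Algebra F (TF β)] [IsScalarTower ℚ F (TF β)] (hP : IsPerron β)
    (hrec : IsReciprocal β ∨ β < 1.28) {p : ℕ} (hp : p.Prime)
    (hφ : ∀ x : F, IsIntegral ℤ x → ∃ y : F, IsIntegral ℤ y ∧ x ^ p = x + p * y)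
    (hs : Module.finrank F (TF β) = 1 ∨
      (5 * Module.finrank F (TF β)) ^ (p - 1) ≤ p ^ Module.finrank ℚ F) {x0 : ℝ} (hx0 : 0 < x0)
    (hx0p : x0 ^ (p - 1) = p)
    (h2 : 4 * (Module.finrank F (TF β) : ℝ) * ((p : ℝ) - 1) * x0 * Real.log β <
      Module.finrank ℚ F * Real.log p) :
    (ParryPowers β).Finite := by
  classical
  by_contra hinf
  have hrec' : IsReciprocal β := by
    rcases hrec with h | h
    · exact h
    · exact isReciprocal hP h hinf
  have hβ := hP.1
  have hβ0 : (0 : ℝ) < β := by linarith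
  have hone : ∀ z : ℂ, aeval z (minpoly ℤ β) = 0 → z ≠ (β : ℂ) → ‖z‖ ≤ 1 :=
    fun z hz hne => one_of_inf hP hinf hz hne
  haveI := tf_finite hP hrec'
  haveI : FiniteDimensional F (TF β) := FiniteDimensional.right ℚ F (TF β)
  haveI : FiniteDimensional ℚ F := FiniteDimensional.left ℚ F (TF β)
  have hm : (1 : ℝ) ≤ Module.finrank F (TF β) := by
    exact_mod_cast (Module.finrank_pos : 0 < Module.finrank F (TF β))
  have hp0 : (0 : ℝ) < p := by exact_mod_cast hp.pos
  have hU2 : ∀ n, 0 ≤ U β n - 2 := fun n => by linarith [U_two_le hβ0 n]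
  refine num2 hβ (m := Module.finrank F (TF β)) (D := Module.finrank ℚ F) (p := p) (κ := 1)
    (Module.finrank_pos) (Module.finrank_pos) hp.two_le hs hx0 hx0p (by rwa [one_mul])
    (fun k => 1 + (U β (p ^ k) + U β (p ^ (k - 1)) - 4) / (4 * Module.finrank F (TF β))) ?_ ?_ ?_ ?_
  · intro k
    have : 0 ≤ (U β (p ^ (k + 1)) + U β (p ^ (k + 1 - 1)) - 4) / (4 * Module.finrank F (TF β)) :=
      div_nonneg (by linarith [hU2 (p ^ (k + 1)), hU2 (p ^ (k + 1 - 1))]) (by linarith)
    linarith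
  · intro k
    have e1 : 1 + (U β (p ^ (k + 1)) + U β (p ^ (k + 1 - 1)) - 4) / (4 * Module.finrank F (TF β)) ≤
        β ^ p ^ (k + 1) := by
      rw [Nat.add_sub_cancel]
      have hb : 1 ≤ β ^ p ^ (k + 1) := one_le_pow₀ hβ.le
      have hbk : β ^ p ^ k ≤ β ^ p ^ (k + 1) :=
        pow_le_pow_right₀ hβ.le (Nat.pow_le_pow_right hp.pos (by omega))
      have hi : ∀ n, (β⁻¹) ^ n ≤ 1 := fun n =>
        pow_le_one₀ (by positivity) (inv_le_one_of_one_le₀ hβ.le)
      have e2 : U β (p ^ (k + 1)) + U β (p ^ k) - 4 ≤ 2 * (β ^ p ^ (k + 1) - 1) := by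
        unfold U
        have h1 := hi (p ^ (k + 1))
        have h2 := hi (p ^ k)
        linarith
      have e3 : (U β (p ^ (k + 1)) + U β (p ^ k) - 4) / (4 * Module.finrank F (TF β)) ≤
          β ^ p ^ (k + 1) - 1 := by
        rw [div_le_iff₀ (by linarith)]
        nlinarith
      linarith
    have e0 : 0 ≤ (U β (p ^ (k + 1)) + U β (p ^ (k + 1 - 1)) - 4) / (4 * Module.finrank F (TF β)) :=
      div_nonneg (by linarith [hU2 (p ^ (k + 1)), hU2 (p ^ (k + 1 - 1))]) (by linarith)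
    have e4 := Real.log_le_log (by linarith) e1
    rw [Real.log_pow] at e4
    push_cast at e4
    rw [one_mul]
    exact e4
  · intro k
    rw [Nat.add_sub_cancel]
    set A := (U β (p ^ (k + 1)) - 2) / (4 * (Module.finrank F (TF β) : ℝ)) with hA
    set B := (U β (p ^ k) - 2) / (4 * (Module.finrank F (TF β) : ℝ)) with hB
    have hA0 : 0 ≤ A := div_nonneg (hU2 _) (by linarith)
    have hB0 : 0 ≤ B := div_nonneg (hU2 _) (by linarith)
    have e1 : (U β (p ^ (k + 1)) + U β (p ^ k) - 4) / (4 * (Module.finrank F (TF β) : ℝ)) = A + B := by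
      rw [hA, hB, ← add_div]
      congr 1
      ring
    rw [e1]
    nlinarith [mul_nonneg hA0 hB0]
  · intro k hU
    rw [Nat.add_sub_cancel]
    obtain ⟨y, hy, hyy⟩ := S_cong hβ hP.2.1 hrec' hp (AlgHom.id ℚ F) (AlgHom.id ℚ F) hφ k
    exact norm_ineq3 hβ hP.2.1 hrec' hone (AlgHom.id ℚ F) hy hyy
      (ne_zero_C hβ hP.2.1 hrec' hone _ _ hU)

/-- the size condition for `p = 2` -/
lemma size_two {m D : ℕ} (hm : 0 < m) (h : 2 * m ≤ D) : m = 1 ∨ (5 * m) ^ (2 - 1) ≤ 2 ^ D := by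
  rcases Nat.lt_or_ge m 2 with h1 | h1
  · exact Or.inl (by omega)
  · right
    rw [show 2 - 1 = 1 from rfl, pow_one]
    have h2 : 2 ^ (2 * m) ≤ 2 ^ D := Nat.pow_le_pow_right (by omega) h
    refine le_trans ?_ h2
    clear h2 h hm
    induction m, h1 using Nat.le_induction with
    | base => norm_num
    | succ m hm ih =>
      have : 2 ^ (2 * (m + 1)) = 4 * 2 ^ (2 * m) := by
        rw [show 2 * (m + 1) = 2 * m + 2 by ring, pow_add]
        ring
      omega

lemma four_log {β : ℝ} (hβ : 1 < β) (h : β ^ 4 < 2) : 4 * Real.log β < Real.log 2 := by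
  have h1 := Real.log_lt_log (by positivity) h
  rw [Real.log_pow] at h1
  exact_mod_cast h1

theorem lt_128 {β : ℝ} (h : β ^ 4 < 2) : β < 1.28 := by
  by_contra hc
  push Not at hc
  have := pow_le_pow_left₀ (by norm_num) hc 4
  norm_num at this
  linarith

theorem finrank_pos' (F : Type) [Field F] [Algebra ℚ F] {β : ℝ} [Algebra F (TF β)]
    [IsScalarTower ℚ F (TF β)] (hP : IsPerron β) (h : β < 1.28) (hinf : ¬ (ParryPowers β).Finite) :
    0 < Module.finrank F (TF β) := by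
  haveI := tf_finite hP (isReciprocal hP h hinf)
  haveI : FiniteDimensional F (TF β) := FiniteDimensional.right ℚ F (TF β)
  exact Module.finrank_pos

theorem mainB2 {β : ℝ} [Algebra F (TF β)] [IsScalarTower ℚ F (TF β)] (hP : IsPerron β)
    (hβ4 : β ^ 4 < 2) (φ : F →ₐ[ℚ] F)
    (hφ : ∀ x : F, IsIntegral ℤ x → ∃ y : F, IsIntegral ℤ y ∧ x ^ 2 = φ x + (2 : ℕ) * y)
    (hDm : 3 * Module.finrank F (TF β) ≤ Module.finrank ℚ F) : (ParryPowers β).Finite := by
  by_contra hinf
  have h128 := lt_128 hβ4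
  have hm := finrank_pos' F hP h128 hinf
  have h4 := four_log hP.1 hβ4
  have hl : 0 < Real.log β := Real.log_pos hP.1
  have hm' : (1 : ℝ) ≤ Module.finrank F (TF β) := by exact_mod_cast hm
  have hDm' : 3 * (Module.finrank F (TF β) : ℝ) ≤ Module.finrank ℚ F := by exact_mod_cast hDm
  apply hinf
  refine mainB hP (Or.inr h128) Nat.prime_two φ hφ (size_two hm (by omega)) (x0 := 2)
    (by norm_num) (by norm_num) ?_
  push_cast
  nlinarith

theorem mainC2 {β : ℝ} [Algebra F (TF β)] [IsScalarTower ℚ F (TF β)] (hP : IsPerron β)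
    (hβ4 : β ^ 4 < 2)
    (hφ : ∀ x : F, IsIntegral ℤ x → ∃ y : F, IsIntegral ℤ y ∧ x ^ 2 = x + (2 : ℕ) * y)
    (hDm : 2 * Module.finrank F (TF β) ≤ Module.finrank ℚ F) : (ParryPowers β).Finite := by
  by_contra hinf
  have h128 := lt_128 hβ4
  have hm := finrank_pos' F hP h128 hinf
  have h4 := four_log hP.1 hβ4
  have hl : 0 < Real.log β := Real.log_pos hP.1
  have hm' : (1 : ℝ) ≤ Module.finrank F (TF β) := by exact_mod_cast hm
  have hDm' : 2 * (Module.finrank F (TF β) : ℝ) ≤ Module.finrank ℚ F := by exact_mod_cast hDm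
  apply hinf
  refine mainC hP (Or.inr h128) Nat.prime_two hφ (size_two hm (by omega)) (x0 := 2)
    (by norm_num) (by norm_num) ?_
  push_cast
  nlinarith

end

end Pool.Agent.Q262.AB
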